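import Pool.Agent.Mid.Final
import Pool.Agent.AbAlg.Fam

/-!
# Classes killed by the idempotents with weights in a given set
-/

set_option autoImplicit false
set_option linter.unusedSectionVars false

open CategoryTheory MonoidalCategory Limits
open Pool.Agent.Helper15.Murre Pool.Agent.Helper58.MAD Pool.Agent.Helper90.MAD Pool.Agent.Mid
open Pool.Agent.AbAlg

universe w v u

namespace Pool.Agent.MAlg

section defs

variable {C : Type u} [Category.{v} C] [Preadditive C] [Linear ℚ C]
  [MonoidalCategory C] [SymmetricCategory C] [RigidCategory C] {F : Type w} [Field F]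
  {W : MotivicHomology C F}

/-- the classes of `Z ⊆ CH_l(N)` are killed by the idempotents of `N` with weights in `P` -/
def Kill [MonoidalPreadditive C] [MonoidalLinear ℚ C] (Z : Fam W) (N : C) (l : ℤ)
    (P : ℤ → Prop) : Prop :=
  ∀ f : N ⟶ N, f ≫ f = f → (∀ j, ¬ P j → ∀ x ∈ W.gr N j, (W.H.map f).hom x = 0) →
    ∀ α ∈ Z.Z l N, α ≫ f = 0

end defs

variable {C : Type u} [Category.{v} C] [Preadditive C] [Linear ℚ C]
  [MonoidalCategory C] [SymmetricCategory C] [MonoidalPreadditive C] [MonoidalLinear ℚ C]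
  [RigidCategory C] [HasBinaryBiproducts C] [IsIdempotentComplete C]
  {F : Type w} [Field F] {W : MotivicHomology C F}
variable {C' : Type u} [Category.{v} C'] [Preadditive C'] [Linear ℚ C']
  [MonoidalCategory C'] [SymmetricCategory C'] [MonoidalPreadditive C'] [MonoidalLinear ℚ C']
  [RigidCategory C'] [HasBinaryBiproducts C'] [IsIdempotentComplete C']
  {W' : MotivicHomology C' F} {Φ : C ⥤ C'}

theorem Kill.mono {Z : Fam W} {N : C} {l : ℤ} {P Q : ℤ → Prop} (h : Kill Z N l Q)
    (hPQ : ∀ j, P j → Q j) : Kill Z N l P :=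
  fun f hf hf0 α hα => h f hf (fun j hj => hf0 j fun hP => hj (hPQ j hP)) α hα

theorem Kill.of_top {Z : Fam W} {N : C} {l : ℤ} {P : ℤ → Prop} (h : Kill (topFam W) N l P) :
    Kill Z N l P :=
  fun f hf hf0 α _ => h f hf hf0 α trivial

theorem kill_top_iff {N : C} {l : ℤ} : Kill (topFam W) N l (fun j => j < 2 * l) ↔
    VanAt W N l :=
  ⟨fun h f hf hf0 α => h f hf (fun j hj => hf0 j (by omega)) α trivial,
    fun h f hf hf0 α _ => h f hf (fun j hj => hf0 j (by omega)) α⟩

theorem Kill.retract {Z : Fam W} {N M : C} {l : ℤ} {P : ℤ → Prop} (R : Retract N M)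
    (h : Kill Z M l P) : Kill Z N l P := by
  intro f hf hf0 α hα
  have h1 := h (R.r ≫ f ≫ R.i) (by
    simp only [Category.assoc]
    rw [R.retract_assoc, reassoc_of% hf]) (by
      intro j hj x hx
      simp only [W.map_comp_apply]
      rw [hf0 j hj _ (W.map_gr _ _ _ hx), map_zero]) (α ≫ R.i) (Z.comp α R.i hα)
  have h2 := congrArg (· ≫ R.r) h1
  simp only [Category.assoc, R.retract, zero_comp, Category.comp_id] at h2
  rwa [R.retract_assoc] at h2

theorem Kill.ofIso {Z : Fam W} {N M : C} {l : ℤ} {P : ℤ → Prop} (e : N ≅ M)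
    (h : Kill Z M l P) : Kill Z N l P :=
  h.retract ⟨e.hom, e.inv, e.hom_inv_id⟩

theorem Kill.twist {Z : Fam W} {N : C} {l : ℤ} {P : ℤ → Prop} (h : Kill Z N l P) (m : ℤ) :
    Kill Z (N ⊗ W.T m) (l + m) (fun j => P (j - 2 * m)) := by
  intro f hf hf0 α hα
  apply shiftCH_injective
  have h3 : ∀ (k : ℤ) (_ : k = l) (g : N ⟶ N) (_ : g ≫ g = g)
      (_ : ∀ j, ¬ P j → ∀ x ∈ W.gr N j, (W.H.map g).hom x = 0) (β : W.CH k N),
      β ∈ Z.Z k N → β ≫ g = 0 := by
    rintro _ rfl g hg hg0 β hβ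
    exact h g hg hg0 β hβ
  rw [shift_eq]
  refine h3 _ (by ring) _ ?_ ?_ _ (Z.shift α hα)
  · simp only [Category.assoc, Iso.hom_inv_id_assoc]
    rw [← comp_whiskerRight_assoc, hf]
  · intro j hj x hx
    simp only [W.map_comp_apply]
    rw [map_whisker_zero f (-m) j ?_ _ (W.map_gr _ _ _ hx), map_zero]
    intro y hy
    refine hf0 _ ?_ y hy
    have h4 : j - 2 * -m - 2 * m = j := by ring
    change ¬ P (j - 2 * -m - 2 * m)
    rw [h4]
    exact hj

/-- the idempotents of a source isomorphic to `1(l)` -/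
theorem Kill.kill {Z : Fam W} {N : C} {l : ℤ} {P : ℤ → Prop} (h : Kill Z N l P) {f : N ⟶ N}
    (hf : f ≫ f = f) (hf0 : ∀ j, ¬ P j → ∀ x ∈ W.gr N j, (W.H.map f).hom x = 0) {A : C}
    (e : W.T l ≅ A) (α : A ⟶ N) (hα : e.hom ≫ α ∈ Z.Z l N) : α ≫ f = 0 := by
  have h1 := h f hf hf0 (e.hom ≫ α) hα
  have h2 := congrArg (e.inv ≫ ·) h1
  simpa using h2

/-- truncations act as the identity -/
theorem Kill.trunc {Z : Fam W} {N : C} {l : ℤ} {w : N ⟶ N} {r : ℤ}
    (h : Kill Z N l (fun j => j < r)) (hw : IsTrunc W w r) {A : C} (e : W.T l ≅ A) (x : A ⟶ N)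
    (hx : e.hom ≫ x ∈ Z.Z l N) : x ≫ w = x := by
  have h1 := h.kill (one_sub_idem hw.idem) (fun j hj y hy => by
    rw [map_one_sub, hw.one j (by omega) y hy, sub_self]) e x hx
  rw [Preadditive.comp_sub, Category.comp_id, sub_eq_zero] at h1
  exact h1.symm

/-- base change: it is enough to know that the classes are killed over the larger field -/
theorem Kill.baseChange (B : BaseChange W W' Φ) {Z : Fam W} {Z' : Fam W'}
    (hZ : ∀ (l : ℤ) (M : C) (α : W.CH l M), α ∈ Z.Z l M →
      (B.tate l).hom ≫ Φ.map α ∈ Z'.Z l (Φ.obj M))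
    {N : C} {l : ℤ} {P : ℤ → Prop} (h : Kill Z' (Φ.obj N) l P) : Kill Z N l P := by
  have hadd := B.additive
  have hfaith := B.faithful
  intro f hf hf0 α hα
  apply Φ.map_injective
  rw [Φ.map_zero, Φ.map_comp]
  refine h.kill (by rw [← Φ.map_comp, hf]) ?_ (B.tate l) (Φ.map α) (hZ l N α hα)
  intro j hj x hx
  obtain ⟨y, rfl⟩ := (B.comp N).surjective x
  rw [← B.comp_gr] at hx
  rw [← B.comp_nat, hf0 j hj y hx, map_zero]

/-- decompose the image of `f` by (A) -/
theorem Kill.union (hA : ∀ N : C, MurreA W N) (hN : NoPhantom W) {Z : Fam W} {N : C} {l : ℤ}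
    {P Q : ℤ → Prop} (h : Kill Z N l P) (h' : Kill Z N l Q) :
    Kill Z N l (fun j => P j ∨ Q j) := by
  classical
  intro f hf hf0 α hα
  obtain ⟨M, i, e, hie, hei⟩ := IsIdempotentComplete.idempotents_split N f hf
  obtain ⟨D⟩ := hA M
  have hei' : e ≫ i = f := hei
  have hgr : ∀ j, ¬ (P j ∨ Q j) → ∀ x ∈ W.gr M j, x = 0 := by
    intro j hj x hx
    have h1 : (W.H.map (i ≫ f ≫ e)).hom x = x := by
      rw [← hei']
      simp only [Category.assoc]
      rw [reassoc_of% hie, hie, W.map_id_apply]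
    rw [← h1]
    simp only [W.map_comp_apply]
    rw [hf0 j hj _ (W.map_gr _ _ _ hx), map_zero]
  have hidem : ∀ q, (e ≫ D.p q ≫ i) ≫ (e ≫ D.p q ≫ i) = e ≫ D.p q ≫ i := by
    intro q
    simp only [Category.assoc]
    rw [reassoc_of% hie]
    rw [← Category.assoc (D.p q), D.idem]
  have hpure : ∀ q j, j ≠ q → ∀ x ∈ W.gr N j, (W.H.map (e ≫ D.p q ≫ i)).hom x = 0 := by
    intro q j hj x hx
    simp only [W.map_comp_apply]
    rw [D.homology q j _ (W.map_gr _ _ _ hx), if_neg hj, map_zero]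
  have key : ∀ q : ℤ, (α ≫ e) ≫ D.p q = 0 := by
    intro q
    have h0 : P q → α ≫ e ≫ D.p q ≫ i = 0 := fun hq =>
      h _ (hidem q) (fun j hj => hpure q j (by rintro rfl; exact hj hq)) α hα
    have h0' : Q q → α ≫ e ≫ D.p q ≫ i = 0 := fun hq =>
      h' _ (hidem q) (fun j hj => hpure q j (by rintro rfl; exact hj hq)) α hα
    have h00 : α ≫ e ≫ D.p q ≫ i = 0 := by
      by_cases hP : P q
      · exact h0 hP
      · by_cases hQ : Q q
        · exact h0' hQ
        · have h1 : D.p q = 0 := by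
            apply hN.idem _ (D.idem q)
            apply W.hext
            intro j x hx
            rw [D.homology q j x hx]
            split_ifs with hj
            · subst hj
              rw [hgr j (by tauto) x hx]; simp
            · rfl
          rw [h1, zero_comp, comp_zero, comp_zero]
    have h2 := congrArg (· ≫ e) h00
    simp only [Category.assoc, hie, Category.comp_id, zero_comp] at h2
    rw [Category.assoc, h2]
  have h5 : α ≫ e = 0 := by
    apply D.ext_comp
    intro q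
    rw [key q, zero_comp]
  rw [← hei', ← Category.assoc, h5, zero_comp]

/-- one weight: every Chow-Kunneth decomposition -/
theorem Kill.of_CK (hA : ∀ N : C, MurreA W N) (hN : NilHom W) {Z : Fam W} {N : C} {l a : ℤ}
    (h : ∀ (D : CK W N), ∀ α ∈ Z.Z l N, α ≫ D.p a = 0) : Kill Z N l (fun j => j = a) := by
  intro f hf hf0 α hα
  obtain ⟨D⟩ := hA N
  have hb : (α ≫ f) ≫ D.p a = 0 := h D _ (Z.comp α f hα)
  apply nil_kill hN (α ≫ f) (f ≫ (𝟙 N - D.p a) ≫ f)
  · apply W.hext
    intro j x hx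
    rw [W.map_comp_apply]
    by_cases hj : j = a
    · rw [W.map_comp_apply, map_one_sub, D.homology a j _ (W.map_gr _ _ _ hx), if_pos hj,
        sub_self, map_zero]
      rfl
    · rw [hf0 j hj x hx, map_zero]
      rfl
  · have h1 : (α ≫ f) ≫ f = α ≫ f := by rw [Category.assoc, hf]
    rw [← Category.assoc, h1, ← Category.assoc, Preadditive.comp_sub, hb, Category.comp_id,
      sub_zero, h1]

/-- the converse -/
theorem Kill.CK {Z : Fam W} {N : C} {l : ℤ} {P : ℤ → Prop} (h : Kill Z N l P) (D : CK W N)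
    {a : ℤ} (ha : P a) (α : W.CH l N) (hα : α ∈ Z.Z l N) : α ≫ D.p a = 0 :=
  h _ (D.idem a) (fun j hj x hx => by
    rw [D.homology a j x hx, if_neg (by rintro rfl; exact hj ha)]) α hα

end Pool.Agent.MAlg
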