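import Pool.Agent.MAlg.Defs
import Pool.Agent.MAlg.Kill

/-!
# Algebraically trivial cycles
-/

set_option autoImplicit false
set_option linter.unusedSectionVars false

open CategoryTheory MonoidalCategory Limits
open Pool.Agent.Helper15.Murre Pool.Agent.Helper58.MAD Pool.Agent.Helper90.MAD Pool.Agent.Mid
open Pool.Agent.AbAlg

universe w v u

namespace Pool.Agent.MAlg

variable {C : Type u} [Category.{v} C] [Preadditive C] [Linear ℚ C]
  [MonoidalCategory C] [SymmetricCategory C] [MonoidalPreadditive C] [MonoidalLinear ℚ C]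
  [RigidCategory C] [HasBinaryBiproducts C] [IsIdempotentComplete C]
  {F : Type w} [Field F] {W : MotivicHomology C F}
variable {C' : Type u} [Category.{v} C'] [Preadditive C'] [Linear ℚ C']
  [MonoidalCategory C'] [SymmetricCategory C'] [MonoidalPreadditive C'] [MonoidalLinear ℚ C']
  [RigidCategory C'] [HasBinaryBiproducts C'] [IsIdempotentComplete C']
  {W' : MotivicHomology C' F} {Φ : C ⥤ C'}

theorem algCyc_comp (S : Set C) {l : ℤ} {M N : C} (α : W.CH l M) (f : M ⟶ N)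
    (hα : α ∈ AlgCyc W S l M) : α ≫ f ∈ AlgCyc W S l N := by
  unfold AlgCyc at hα
  induction hα using Submodule.span_induction with
  | mem x hx =>
    obtain ⟨Y, hY, z, Γ, rfl⟩ := hx
    exact Submodule.subset_span ⟨Y, hY, z, Γ ≫ f, Category.assoc _ _ _⟩
  | zero =>
    rw [zero_comp]
    exact Submodule.zero_mem _
  | add x y _ _ hx hy =>
    rw [Preadditive.add_comp]
    exact Submodule.add_mem _ hx hy
  | smul q x _ hx =>
    rw [Linear.smul_comp]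
    exact Submodule.smul_mem _ _ hx

theorem algCyc_twist (S : Set C) {l : ℤ} {M : C} (m : ℤ) (α : W.CH l M)
    (hα : α ∈ AlgCyc W S l M) :
    (W.tateAdd l m).hom ≫ (α ▷ W.T m) ∈ AlgCyc W S (l + m) (M ⊗ W.T m) := by
  unfold AlgCyc at hα
  induction hα using Submodule.span_induction with
  | mem x hx =>
    obtain ⟨Y, hY, z, Γ, rfl⟩ := hx
    let e : (Y ⊗ W.T l) ⊗ W.T m ≅ Y ⊗ W.T (l + m) :=
      (α_ _ _ _) ≪≫ whiskerLeftIso Y (W.tateAdd l m).symm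
    refine Submodule.subset_span ⟨Y, hY, (W.tateAdd l m).hom ≫ (z ▷ W.T m) ≫ e.hom,
      e.inv ≫ Γ ▷ W.T m, ?_⟩
    rw [comp_whiskerRight]
    simp only [Category.assoc, Iso.hom_inv_id_assoc]
  | zero =>
    rw [MonoidalPreadditive.zero_whiskerRight, comp_zero]
    exact Submodule.zero_mem _
  | add x y _ _ hx hy =>
    rw [MonoidalPreadditive.add_whiskerRight, Preadditive.comp_add]
    exact Submodule.add_mem _ hx hy
  | smul q x _ hx =>
    rw [MonoidalLinear.smul_whiskerRight, Linear.comp_smul]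
    exact Submodule.smul_mem _ _ hx

/-- the family of the algebraically trivial cycles -/
def algFam (W : MotivicHomology C F) (S : Set C) : Fam W where
  Z := fun l M => AlgCyc W S l M
  comp := fun α f hα => algCyc_comp S α f hα
  twist := fun m α hα => algCyc_twist S m α hα

/-- the map `Y ⟶ T` recovered from its name -/
private lemma zig {Y T : C} (ξ : Y ⟶ T) :
    (ρ_ Y).inv ≫ (Y ◁ (η_ Y Yᘁ ≫ ξ ▷ Yᘁ)) ≫ (β_ Y (T ⊗ Yᘁ)).hom ≫ (α_ T Yᘁ Y).hom ≫
      T ◁ ε_ Y Yᘁ ≫ (ρ_ T).hom = ξ := by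
  rw [BraidedCategory.braiding_naturality_right_assoc]
  have h1 : (ρ_ Y).inv ≫ (β_ Y (𝟙_ C)).hom = (λ_ Y).inv := by
    rw [Iso.inv_comp_eq, Iso.eq_comp_inv]
    simp
  rw [reassoc_of% h1, comp_whiskerRight, Category.assoc, associator_naturality_left_assoc,
    ← whisker_exchange_assoc, rightUnitor_naturality]
  have h2 := ExactPairing.evaluation_coevaluation Y Yᘁ
  rw [reassoc_of% h2]
  simp

private lemma restr_aux {Y T : C} (M L : C) (α : L ⟶ M ⊗ Y) (ξ : Y ⟶ T) :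
    ((ρ_ L).inv ≫ (L ◁ (η_ Y Yᘁ ≫ ξ ▷ Yᘁ))) ≫ ((α ▷ (T ⊗ Yᘁ)) ≫ (α_ M Y _).hom ≫
      M ◁ ((β_ Y (T ⊗ Yᘁ)).hom ≫ (α_ T Yᘁ Y).hom ≫ T ◁ ε_ Y Yᘁ ≫ (ρ_ T).hom)) =
      α ≫ M ◁ ξ := by
  rw [Category.assoc, whisker_exchange_assoc, ← rightUnitor_inv_naturality_assoc]
  congr 1
  rw [associator_naturality_right_assoc]
  have h1 : (ρ_ (M ⊗ Y)).inv ≫ (α_ M Y (𝟙_ C)).hom = M ◁ (ρ_ Y).inv := by
    rw [← whiskerLeft_rightUnitor_inv]
  rw [reassoc_of% h1, ← MonoidalCategory.whiskerLeft_comp, ← MonoidalCategory.whiskerLeft_comp,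
    zig]

/-- the restriction of `α ∈ CH_l(M ⊗ h₁(X))` to a point is algebraically trivial -/
theorem algCyc_restrict {S : Set C} {Y : C} (hY : Y ∈ S) (hd : Nonempty (Yᘁ ≅ Y ⊗ W.T (-1)))
    (M : C) (l : ℤ) (α : W.CH l (M ⊗ Y)) (ξ : Y ⟶ W.T 1) :
    α ≫ (M ◁ ξ) ∈ AlgCyc W S l (M ⊗ W.T 1) := by
  obtain ⟨d⟩ := hd
  let e : W.T l ⊗ (W.T 1 ⊗ Yᘁ) ≅ Y ⊗ W.T l :=
    whiskerLeftIso (W.T l) (whiskerLeftIso (W.T 1) d ≪≫ (α_ _ _ _).symm ≪≫
      whiskerRightIso (β_ (W.T 1) Y) (W.T (-1)) ≪≫ untwist W Y 1) ≪≫ β_ _ _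
  refine Submodule.subset_span ⟨Y, hY, ((ρ_ (W.T l)).inv ≫ (W.T l ◁ (η_ Y Yᘁ ≫
    ξ ▷ Yᘁ))) ≫ e.hom, e.inv ≫ ((α ▷ (W.T 1 ⊗ Yᘁ)) ≫ (α_ M Y _).hom ≫
      M ◁ ((β_ Y (W.T 1 ⊗ Yᘁ)).hom ≫ (α_ (W.T 1) Yᘁ Y).hom ≫
        W.T 1 ◁ ε_ Y Yᘁ ≫ (ρ_ (W.T 1)).hom)), ?_⟩
  rw [Category.assoc, Iso.hom_inv_id_assoc]
  exact (restr_aux M (W.T l) α ξ).symm

/-- there are no algebraically trivial cycles if there are no families -/
theorem algCyc_van {S : Set C} (hd : ∀ Y ∈ S, Nonempty (Yᘁ ≅ Y ⊗ W.T (-1))) (N : C) (l : ℤ)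
    (h : ∀ Y ∈ S, ∀ α : W.CH (l + 1) (N ⊗ Y), α = 0) : ∀ α ∈ AlgCyc W S l N, α = 0 := by
  intro α hα
  unfold AlgCyc at hα
  induction hα using Submodule.span_induction with
  | mem x hx =>
    obtain ⟨Y, hY, z, Γ, rfl⟩ := hx
    obtain ⟨d⟩ := hd Y hY
    have h1 : ∀ β : W.T l ⟶ N ⊗ Yᘁ, β = 0 := by
      intro β
      have h2 : β ≫ (whiskerLeftIso N d ≪≫ (α_ _ _ _).symm).hom = 0 := by
        refine (topFam W).van_twist (n := -1) ?_ _ trivial
        intro γ _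
        have h3 : ∀ (k : ℤ) (_ : k = l + 1) (γ : W.CH k (N ⊗ Y)), γ = 0 := by
          rintro _ rfl γ
          exact h Y hY γ
        exact h3 _ (by ring) γ
      have h4 := congrArg (· ≫ (whiskerLeftIso N d ≪≫ (α_ _ _ _).symm).inv) h2
      simpa using h4
    have h5 : (β_ (W.T l) Y).hom ≫ Γ = 0 := by
      apply (tensorRightHomEquiv (W.T l) Y Yᘁ N).injective
      rw [h1 (tensorRightHomEquiv (W.T l) Y Yᘁ N _), h1 (tensorRightHomEquiv (W.T l) Y Yᘁ N _)]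
    have h6 : Γ = 0 := by
      have := congrArg ((β_ (W.T l) Y).inv ≫ ·) h5
      simpa using this
    rw [h6, comp_zero]
  | zero => rfl
  | add x y _ _ hx hy => rw [hx, hy, add_zero]
  | smul q x _ hx => rw [hx, smul_zero]

/-- the algebraically trivial cycles are killed by an idempotent `p` of `N` if `CH_{l+1}(N ⊗ Y)`
is killed by `p ⊗ 1` -/
theorem algCyc_kill {S : Set C} (hd : ∀ Y ∈ S, Nonempty (Yᘁ ≅ Y ⊗ W.T (-1))) {N : C} (l : ℤ)
    (p : N ⟶ N) (hp : p ≫ p = p)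
    (h : ∀ Y ∈ S, ∀ α : W.CH (l + 1) (N ⊗ Y), α ≫ (p ▷ Y) = 0) :
    ∀ α ∈ AlgCyc W S l N, α ≫ p = 0 := by
  obtain ⟨P, i, e, hie, hei⟩ := IsIdempotentComplete.idempotents_split N p hp
  intro α hα
  have h1 : α ≫ e = 0 := by
    apply algCyc_van hd P l _ _ (algCyc_comp S α e hα)
    intro Y hY β
    have h2 := h Y hY (β ≫ (i ▷ Y))
    have h3 : (β ≫ i ▷ Y) ≫ p ▷ Y = β ≫ (i ▷ Y) := by
      rw [Category.assoc, ← comp_whiskerRight, ← hei, reassoc_of% hie]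
    rw [h3] at h2
    have h4 := congrArg (· ≫ (e ▷ Y)) h2
    simp only [Category.assoc, zero_comp] at h4
    rw [← comp_whiskerRight, hie, id_whiskerRight, Category.comp_id] at h4
    exact h4
  rw [← hei, ← Category.assoc, h1, zero_comp]

/-- base change -/
theorem algCyc_baseChange (B : BaseChange W W' Φ) {S : Set C} {S' : Set C'}
    (hS : ∀ Y ∈ S, ∃ Y' ∈ S', Nonempty (Carries Φ Y Y')) (l : ℤ) (M : C) (α : W.CH l M)
    (hα : α ∈ AlgCyc W S l M) : (B.tate l).hom ≫ Φ.map α ∈ AlgCyc W' S' l (Φ.obj M) := by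
  have hadd := B.additive
  unfold AlgCyc at hα
  induction hα using Submodule.span_induction with
  | mem x hx =>
    obtain ⟨Y, hY, z, Γ, rfl⟩ := hx
    obtain ⟨Y', hY', ⟨c⟩⟩ := hS Y hY
    let e : Φ.obj (Y ⊗ W.T l) ≅ Y' ⊗ W'.T l :=
      Φ.mapIso (β_ Y (W.T l)) ≪≫ c.iso (W.T l) ≪≫ whiskerRightIso (B.tate l).symm Y' ≪≫
        β_ (W'.T l) Y'
    refine Submodule.subset_span ⟨Y', hY', ((B.tate l).hom ≫ Φ.map z) ≫ e.hom,
      e.inv ≫ Φ.map Γ, ?_⟩
    rw [Φ.map_comp]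
    simp only [Category.assoc, Iso.hom_inv_id_assoc]
  | zero =>
    rw [Φ.map_zero, comp_zero]
    exact Submodule.zero_mem _
  | add x y _ _ hx hy =>
    rw [Φ.map_add, Preadditive.comp_add]
    exact Submodule.add_mem _ hx hy
  | smul q x _ hx =>
    rw [Φ.map_smul, Linear.comp_smul]
    exact Submodule.smul_mem _ _ hx

/-- base change for classes with a source isomorphic to `1(l)` -/
theorem algCyc_ofIso {S : Set C} {l : ℤ} {M N : C} (α : W.CH l M) (e : M ≅ N)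
    (hα : α ≫ e.hom ∈ AlgCyc W S l N) : α ∈ AlgCyc W S l M := by
  have h1 := algCyc_comp S _ e.inv hα
  simpa using h1

/-- another identification of the Tate objects -/
theorem algCyc_tate {S : Set C} {k l : ℤ} (hk : k = l) {M : C} (v : W.T k ≅ W.T l)
    (α : W.CH l M) (h : v.hom ≫ α ∈ AlgCyc W S k M) : α ∈ AlgCyc W S l M := by
  subst hk
  obtain ⟨q, hq⟩ := W.endTate k v.inv
  have h1 : α = q • (v.hom ≫ α) := by
    have h2 : v.inv ≫ v.hom ≫ α = α := by simp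
    rw [hq] at h2
    rw [Linear.smul_comp, Category.id_comp] at h2
    exact h2.symm
  rw [h1]
  exact Submodule.smul_mem _ _ h

/-- from a twist -/
theorem algCyc_untwist {S : Set C} {l : ℤ} {M : C} (m : ℤ) (α : W.CH l M)
    (hα : (W.tateAdd l m).hom ≫ (α ▷ W.T m) ∈ AlgCyc W S (l + m) (M ⊗ W.T m)) :
    α ∈ AlgCyc W S l M := by
  have h1 := algCyc_twist S (-m) _ hα
  have h2 := algCyc_comp S _ (untwist W M m).hom h1
  rw [comp_whiskerRight, Category.assoc, Category.assoc, untwist_natural] at h2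
  refine algCyc_tate (k := l + m + -m) (by ring) (W.tateAdd (l + m) (-m) ≪≫
    whiskerRightIso (W.tateAdd l m) (W.T (-m)) ≪≫ untwist W (W.T l) m) α ?_
  simpa only [Iso.trans_hom, whiskerRightIso_hom, Category.assoc] using h2

end Pool.Agent.MAlg
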