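import Pool.Agent.MAlg.NilB
import Pool.Agent.Helper15.ABC.Package

/-!
# Consequences of (A), (B), (C) for all motives
-/

set_option autoImplicit false
set_option linter.unusedSectionVars false

open CategoryTheory MonoidalCategory Limits
open Pool.Agent.Helper15.Murre Pool.Agent.Helper58.MAD Pool.Agent.Helper90.MAD Pool.Agent.Mid
open Pool.Agent.AbAlg

universe w v u

namespace Pool.Agent.MAlg

section one

variable {C : Type u} [Category.{v} C] [Preadditive C] [Linear ℚ C]
  [MonoidalCategory C] [SymmetricCategory C] [MonoidalPreadditive C] [MonoidalLinear ℚ C]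
  [RigidCategory C] [HasBinaryBiproducts C] [IsIdempotentComplete C]
  {F : Type w} [Field F] {W : MotivicHomology C F}

/-- decompose the image of `f` by (A) -/
theorem Kill.of_forall (hA : ∀ N : C, MurreA W N) (hN : NoPhantom W) {Z : Fam W} {N : C} {l : ℤ}
    {P : ℤ → Prop} (h : ∀ a, P a → Kill Z N l (fun j => j = a)) : Kill Z N l P := by
  classical
  intro f hf hf0 α hα
  obtain ⟨M, i, e, hie, hei⟩ := IsIdempotentComplete.idempotents_split N f hf
  obtain ⟨D⟩ := hA M
  have hei' : e ≫ i = f := hei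
  have hgr : ∀ j, ¬ P j → ∀ x ∈ W.gr M j, x = 0 := by
    intro j hj x hx
    have h1 : (W.H.map (i ≫ f ≫ e)).hom x = x := by
      rw [← hei']
      simp only [Category.assoc]
      rw [reassoc_of% hie, hie, W.map_id_apply]
    rw [← h1]
    simp only [W.map_comp_apply]
    rw [hf0 j hj _ (W.map_gr _ _ _ hx), map_zero]
  have hidem : ∀ q, (e ≫ D.p q ≫ i) ≫ (e ≫ D.p q ≫ i) = e ≫ D.p q ≫ i := by
    intro q
    simp only [Category.assoc]
    rw [reassoc_of% hie]
    rw [← Category.assoc (D.p q), D.idem]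
  have key : ∀ q : ℤ, (α ≫ e) ≫ D.p q = 0 := by
    intro q
    have h00 : α ≫ e ≫ D.p q ≫ i = 0 := by
      by_cases hP : P q
      · refine h q hP _ (hidem q) (fun j hj x hx => ?_) α hα
        simp only [W.map_comp_apply]
        rw [D.homology q j _ (W.map_gr _ _ _ hx), if_neg hj, map_zero]
      · have h1 : D.p q = 0 := by
          apply hN.idem _ (D.idem q)
          apply W.hext
          intro j x hx
          rw [D.homology q j x hx]
          split_ifs with hj
          · subst hj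
            rw [hgr j hP x hx]; simp
          · rfl
        rw [h1, zero_comp, comp_zero, comp_zero]
    have h2 := congrArg (· ≫ e) h00
    simp only [Category.assoc, hie, Category.comp_id, zero_comp] at h2
    rw [Category.assoc, h2]
  have h5 : α ≫ e = 0 := by
    apply D.ext_comp
    intro q
    rw [key q, zero_comp]
  rw [← hei', ← Category.assoc, h5, zero_comp]

theorem vanAt_of_abc (h : Pool.Agent.Helper15.ABC.MurreABC W) (N : C) (l : ℤ) :
    VanAt W N l := by
  have hA : ∀ M : C, MurreA W M := fun M => (h M).1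
  refine kill_top_iff.1 (Kill.of_forall hA (noPhantom_of_nilHom h.nilHom) fun a ha => ?_)
  exact Kill.of_CK hA h.nilHom fun D α _ => (CK.MurreB_iff D).1 (h.murreB D) l a ha α

/-- local nilpotence on the classes of a family `Z` on which a truncation acts as the identity -/
theorem loc_of_trunc (hN : NilHom W) {Z : Fam W} {P : C} (f T : P ⟶ P) (l : ℤ)
    (hT : ∀ γ ∈ Z.Z l P, γ ≫ T = γ) (hf : W.H.map (T ≫ f) = 0) (α : W.CH l P)
    (hα : α ∈ Z.Z l P) : ∃ m : ℕ, α ≫ pw f m = 0 := by
  obtain ⟨m, hm⟩ := hN P (T ≫ f) hf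
  refine ⟨m, ?_⟩
  have h1 : ∀ k : ℕ, α ≫ pw f k = α ≫ pw (T ≫ f) k := by
    intro k
    induction k with
    | zero => rfl
    | succ k ih =>
      change α ≫ pw f k ≫ f = α ≫ pw (T ≫ f) k ≫ (T ≫ f)
      rw [← Category.assoc, ih, ← Category.assoc α (pw (T ≫ f) k), ← Category.assoc _ T f,
        hT _ (Z.comp α _ hα)]
  rw [h1, hm, comp_zero]

/-- the product of a truncation with an endomorphism which is zero on the high weights, except for
one -/
theorem trunc_comp_zero {N : C} {T : N ⟶ N} {r a : ℤ} (hT : IsTrunc W T r) (ha : a < r)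
    (θ : N ⟶ N) (hθ : ∀ j, j ≠ a → ∀ x ∈ W.gr N j, (W.H.map θ).hom x = 0) :
    W.H.map (T ≫ θ) = 0 := by
  apply W.hext
  intro j x hx
  rw [W.map_comp_apply]
  by_cases hj : j < r
  · rw [hT.zero j hj x hx, map_zero]; rfl
  · rw [hT.one j (by omega) x hx, hθ j (by omega) x hx]; rfl

end one

variable {F : Type w} [Field F] {G : Geometry.{w, v, u} F} (E : Families G)

theorem dual_motives (k : G.Fld) :
    ∀ Y ∈ E.motives k, Nonempty (Yᘁ ≅ Y ⊗ (G.mot k).W.T (-1)) := by
  rintro _ ⟨X, rfl⟩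
  exact E.dual X

/-- there are no algebraically trivial classes of weight `2m` if (B) holds for `N ⊗ h₁(X)` -/
theorem alg_zero {k : G.Fld} {N : (G.mot k).C} {m : ℤ}
    (h : ∀ X : E.Curve k, Kill (topFam (G.mot k).W) (N ⊗ E.h₁ X) (m + 1)
      (fun j => j = 2 * m + 1)) (D : CK (G.mot k).W N) :
    D.CH m (2 * m) ⊓ E.Alg m N = ⊥ := by
  rw [eq_bot_iff]
  rintro α ⟨h1, h2⟩
  have h3 := algCyc_kill (dual_motives E k) m (D.p (2 * m)) (D.idem _) (by
    rintro _ ⟨X, rfl⟩ β
    refine h X _ (by rw [← comp_whiskerRight, D.idem]) (fun j hj => ?_) β trivial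
    refine map_whisker_odd (E.odd X) _ fun x hx => ?_
    rw [D.homology _ _ x hx, if_neg (by omega)]) α h2
  have h4 := D.mem_CH.1 h1
  rw [h4] at h3
  simpa using h3

section abc

variable (h : MurreABC G)

include h

theorem oddB_of_abc (m : ℕ) : OddB G m := by
  intro k Z _ _ D
  exact Pool.Agent.Helper15.ABC.MurreABC.murreB (h k) D _ _ (by omega)

theorem middleAlg_of_abc (m : ℕ) : MiddleAlg E m := by
  intro k Z _ _ D
  exact alg_zero E (fun X => (kill_top_iff.2 (vanAt_of_abc (h k) _ _)).mono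
    (fun j hj => by omega)) D

theorem oddNil_of_abc (m : ℕ) : OddNil G m := by
  intro k Z _ _ θ hθ α
  obtain ⟨T, hT⟩ := exists_trunc ((h k (G.h Z)).1) (2 * ((m : ℤ) + 1))
  have hN : NilHom (G.mot k).W := Pool.Agent.Helper15.ABC.MurreABC.nilHom (h k)
  refine loc_of_trunc hN (Z := topFam (G.mot k).W) θ T (m + 1) (fun γ _ => ?_)
    (trunc_comp_zero hT (by omega) θ hθ) α trivial
  exact (vanAt_of_abc (h k) _ _).trunc hT le_rfl (Iso.refl _) γ

theorem middleAlgNil_of_abc (m : ℕ) : MiddleAlgNil E m := by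
  intro k Z hk hZ θ hθ α hα
  have hA : ∀ M, MurreA (G.mot k).W M := fun M => (h k M).1
  obtain ⟨T, hT⟩ := exists_trunc (hA (G.h Z)) (2 * (m : ℤ) + 1)
  have hN : NilHom (G.mot k).W := Pool.Agent.Helper15.ABC.MurreABC.nilHom (h k)
  have h1 : Kill (algF E k) (G.h Z) m (fun j => j = 2 * (m : ℤ)) := by
    refine Kill.of_CK hA hN (fun D α hα => ?_)
    have h2 : α ≫ D.p (2 * m) ∈ D.CH m (2 * m) ⊓ E.Alg m (G.h Z) :=
      ⟨D.mem_CH.2 (by rw [Category.assoc, D.idem]), algCyc_comp _ α _ hα⟩
    rw [middleAlg_of_abc E h m k Z hk hZ D] at h2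
    simpa using h2
  have h2 : Kill (algF E k) (G.h Z) m (fun j => j < 2 * (m : ℤ) + 1) :=
    (((kill_top_iff.2 (vanAt_of_abc (h k) _ _)).of_top.union hA (noPhantom_of_nilHom hN)
      h1)).mono (fun j hj => by omega)
  refine loc_of_trunc hN (Z := algF E k) θ T m (fun γ hγ => ?_)
    (trunc_comp_zero hT (by omega) θ hθ) α hα
  exact h2.trunc hT (Iso.refl _) γ (by simpa using hγ)

end abc

end Pool.Agent.MAlg
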