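import Pool.Agent.MAlg.AlgW

/-!
# A class whose product with the generic point of a curve is zero is algebraically trivial
-/

set_option autoImplicit false
set_option linter.unusedSectionVars false

open CategoryTheory MonoidalCategory Limits
open Pool.Agent.Helper15.Murre Pool.Agent.Helper58.MAD Pool.Agent.Helper90.MAD Pool.Agent.Mid
open Pool.Agent.AbAlg

universe w v u

namespace Pool.Agent.MAlg

variable {C : Type u} [Category.{v} C] [Preadditive C] [Linear ℚ C]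
  [MonoidalCategory C] [SymmetricCategory C] [MonoidalPreadditive C] [MonoidalLinear ℚ C]
  [RigidCategory C] [HasBinaryBiproducts C] [IsIdempotentComplete C]
  {F : Type w} [Field F] {W : MotivicHomology C F}
variable {C' : Type u} [Category.{v} C'] [Preadditive C'] [Linear ℚ C']
  [MonoidalCategory C'] [SymmetricCategory C'] [MonoidalPreadditive C'] [MonoidalLinear ℚ C']
  [RigidCategory C'] [HasBinaryBiproducts C'] [IsIdempotentComplete C']
  {W' : MotivicHomology C' F} {Φ : C ⥤ C'}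

/-- the product of `w : A ⟶ N` with the class `1(1) ⟶ h ⊗ h` -/
def ext (W : MotivicHomology C F) {h : C} (ω : W.T 1 ⟶ h ⊗ h) {A N : C} (w : A ⟶ N) :
    A ⊗ W.T 1 ⟶ (N ⊗ h) ⊗ h :=
  (w ▷ W.T 1) ≫ (N ◁ ω) ≫ (α_ N h h).inv

theorem ext_comp {h : C} (ω : W.T 1 ⟶ h ⊗ h) {A N M : C} (w : A ⟶ N) (θ : N ⟶ M) :
    ext W ω (w ≫ θ) = ext W ω w ≫ ((θ ▷ h) ▷ h) := by
  unfold ext
  rw [comp_whiskerRight, Category.assoc, Category.assoc, Category.assoc,
    ← whisker_exchange_assoc, associator_inv_naturality_left]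

/-- the restriction of `ext W ω w` to the generic point in the last variable: the product of `w`
with the generic point -/
def res {h : C} {h' : C'} (P : GenericPoint W W' Φ h h') (ω : W.T 1 ⟶ h ⊗ h) {A N : C}
    (w : A ⟶ N) : Φ.obj (A ⊗ W.T 1) ⟶ Φ.obj (N ⊗ h) ⊗ W'.T 1 :=
  Φ.map (ext W ω w) ≫ (P.car.iso (N ⊗ h)).hom ≫ (Φ.obj (N ⊗ h) ◁ P.ξ)

theorem res_comp {h : C} {h' : C'} (P : GenericPoint W W' Φ h h') (ω : W.T 1 ⟶ h ⊗ h)
    {A N M : C} (w : A ⟶ N) (θ : N ⟶ M) :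
    res P ω (w ≫ θ) = res P ω w ≫ (Φ.map (θ ▷ h) ▷ W'.T 1) := by
  unfold res
  rw [ext_comp, Φ.map_comp]
  simp only [Category.assoc]
  rw [whisker_exchange]
  rw [← Category.assoc (P.car.iso (N ⊗ h)).hom, ← P.car.natural, Category.assoc]

theorem res_pw {h : C} {h' : C'} (P : GenericPoint W W' Φ h h') (ω : W.T 1 ⟶ h ⊗ h)
    {A N : C} (w : A ⟶ N) (θ : N ⟶ N) (r : ℕ) :
    res P ω (w ≫ pw θ r) = res P ω w ≫ pw (Φ.map (θ ▷ h) ▷ W'.T 1) r := by
  induction r with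
  | zero => simp [pw]
  | succ r ih =>
    change res P ω (w ≫ pw θ r ≫ θ) = res P ω w ≫ (pw _ r ≫ _)
    rw [← Category.assoc, res_comp, ih, Category.assoc]

/-- the product with the generic point is algebraically trivial -/
theorem res_alg (B : BaseChange W W' Φ) {h : C} {h' : C'} {S' : Set C'} (hS' : h' ∈ S')
    (hd' : Nonempty (h'ᘁ ≅ h' ⊗ W'.T (-1))) (P : GenericPoint W W' Φ h h')
    (ω : W.T 1 ⟶ h ⊗ h) {l : ℤ} {N : C} (w : W.CH l N) :
    (B.tate (l + 1)).hom ≫ Φ.map (W.tateAdd l 1).hom ≫ res P ω w ∈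
      AlgCyc W' S' (l + 1) (Φ.obj (N ⊗ h) ⊗ W'.T 1) := by
  have h1 := algCyc_restrict (W := W') hS' hd' (Φ.obj (N ⊗ h)) (l + 1)
    ((B.tate (l + 1)).hom ≫ Φ.map (W.tateAdd l 1).hom ≫ Φ.map (ext W ω w) ≫
      (P.car.iso (N ⊗ h)).hom) P.ξ
  simpa only [res, Category.assoc] using h1

private theorem gen_term {h : C} (q : h ⊗ h ⟶ W.T 1) {S : Set C} (hS : h ∈ S) {l : ℤ}
    {N : C} (i : W.T 0 ⟶ h) (β : W.CH l ((N ⊗ h) ⊗ W.T 0)) :
    (β ≫ ((N ⊗ h) ◁ i)) ≫ (α_ N h h).hom ≫ (N ◁ q) ∈ AlgCyc W S l (N ⊗ W.T 1) := by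
  let β' : W.T l ⟶ N ⊗ h := β ≫ ((N ⊗ h) ◁ W.tateZero.hom) ≫ (ρ_ (N ⊗ h)).hom
  refine Submodule.subset_span ⟨h, hS,
    (λ_ (W.T l)).inv ≫ (W.tateZero.inv ▷ W.T l) ≫ (i ▷ W.T l),
    (h ◁ β') ≫ (β_ h (N ⊗ h)).hom ≫ (α_ N h h).hom ≫ (N ◁ q), ?_⟩
  have key : (λ_ (W.T l)).inv ≫ (W.tateZero.inv ▷ W.T l) ≫ (W.T 0 ◁ β') ≫
      (β_ (W.T 0) (N ⊗ h)).hom = β := by
    rw [← whisker_exchange_assoc, ← leftUnitor_inv_naturality_assoc,
      BraidedCategory.braiding_naturality_left]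
    have h1 : (λ_ (N ⊗ h)).inv ≫ (β_ (𝟙_ C) (N ⊗ h)).hom = (ρ_ (N ⊗ h)).inv := by
      rw [Iso.inv_comp_eq, Iso.eq_comp_inv]
      simp
    rw [reassoc_of% h1]
    change (β ≫ ((N ⊗ h) ◁ W.tateZero.hom) ≫ (ρ_ (N ⊗ h)).hom) ≫ (ρ_ (N ⊗ h)).inv ≫
      (N ⊗ h) ◁ W.tateZero.inv = β
    simp only [Category.assoc, Iso.hom_inv_id_assoc]
    rw [← MonoidalCategory.whiskerLeft_comp, Iso.hom_inv_id, MonoidalCategory.whiskerLeft_id,
      Category.comp_id]
  conv_lhs => rw [← key]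
  simp only [Category.assoc]
  rw [← whisker_exchange_assoc i β', BraidedCategory.braiding_naturality_left_assoc i]

/-- **the idea**: if the product of `w ∈ CH_l(N)` with the generic point of `X` is zero, then `w`
is algebraically trivial -/
theorem alg_of_res {h : C} {h' : C'} {S : Set C} (hS : h ∈ S)
    (P : GenericPoint W W' Φ h h') (R : Retract (W.T 1) (h ⊗ h)) {l : ℤ} {N : C}
    (w : W.CH l N) (h0 : res P R.i w = 0) : w ∈ AlgCyc W S l N := by
  apply algCyc_untwist 1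
  have h1 := P.localisation (N ⊗ h) (l + 1) ((W.tateAdd l 1).hom ≫ ext W R.i w) (by
    rw [Φ.map_comp, Category.assoc]
    change Φ.map (W.tateAdd l 1).hom ≫ res P R.i w = 0
    rw [h0, comp_zero])
  have h2 : (W.tateAdd l 1).hom ≫ (w ▷ W.T 1) =
      ((W.tateAdd l 1).hom ≫ ext W R.i w) ≫ (α_ N h h).hom ≫ (N ◁ R.r) := by
    unfold ext
    simp only [Category.assoc, Iso.inv_hom_id_assoc]
    rw [← MonoidalCategory.whiskerLeft_comp, R.retract, MonoidalCategory.whiskerLeft_id,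
      Category.comp_id]
  rw [h2]
  clear h2
  generalize (W.tateAdd l 1).hom ≫ ext W R.i w = α at h1 ⊢
  clear h0
  induction h1 using Submodule.span_induction with
  | mem x hx =>
    obtain ⟨i, β, rfl⟩ := hx
    exact gen_term R.r hS i β
  | zero =>
    rw [zero_comp]
    exact Submodule.zero_mem _
  | add x y _ _ hx hy =>
    rw [Preadditive.add_comp]
    exact Submodule.add_mem _ hx hy
  | smul q x _ hx =>
    rw [Linear.smul_comp]
    exact Submodule.smul_mem _ _ hx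

end Pool.Agent.MAlg
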