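import Pool.Agent.MAlg.Key
import Pool.Agent.MAlg.Trick

/-!
# The critical case from the algebraically trivial cycles of the middle weight
-/

set_option autoImplicit false
set_option linter.unusedSectionVars false

open CategoryTheory MonoidalCategory Limits TensorProduct
open Pool.Agent.Helper15.Murre Pool.Agent.Helper58.MAD Pool.Agent.Helper90.MAD Pool.Agent.Mid
open Pool.Agent.AbAlg

universe w v u

namespace Pool.Agent.MAlg

section one

variable {C : Type u} [Category.{v} C] [Preadditive C] [Linear ℚ C]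
  [MonoidalCategory C] [SymmetricCategory C] [MonoidalPreadditive C] [MonoidalLinear ℚ C]
  [RigidCategory C] [HasBinaryBiproducts C] [IsIdempotentComplete C]
  {F : Type w} [Field F] {W : MotivicHomology C F}

/-- `f ⊗ 1` on `N ⊗ h₁(X)` -/
theorem map_whisker_odd {M N h : C} (hh : W.gr h 1 = ⊤) (f : M ⟶ N) {j : ℤ}
    (hf : ∀ x ∈ W.gr M (j - 1), (W.H.map f).hom x = 0) :
    ∀ z ∈ W.gr (M ⊗ h) j, (W.H.map (f ▷ h)).hom z = 0 := by
  intro z hz
  refine gr_tensor_induction (P := fun z => (W.H.map (f ▷ h)).hom z = 0) (map_zero _) ?_ ?_ z hz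
  · intro x y hx hy
    rw [map_add, hx, hy, add_zero]
  · intro i i' hi x hx y hy
    rw [W.map_whiskerRight_cross]
    by_cases h1 : i' = 1
    · rw [hf x (by rw [show j - 1 = i by omega]; exact hx), W.cross_zero_left]
    · rw [W.eq_zero_of_mem h1 hy (by rw [hh]; trivial), W.cross_zero_right]

end one

variable {F : Type w} [Field F] {G : Geometry.{w, v, u} F} (E : Families G)

theorem stable_motives {k K : G.Fld} {Φ : (G.mot k).C ⥤ (G.mot K).C} (h : E.Stable Φ) :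
    ∀ Y ∈ E.motives k, ∃ Y' ∈ E.motives K, Nonempty (Carries Φ Y Y') := by
  rintro _ ⟨X, rfl⟩
  obtain ⟨X', ⟨c⟩⟩ := h X
  exact ⟨E.h₁ X', ⟨X', rfl⟩, ⟨c⟩⟩

/-- the family of the algebraically trivial cycles -/
def algF (k : G.Fld) : Fam (G.mot k).W := algFam (G.mot k).W (E.motives k)

theorem algF_baseChange {k K : G.Fld} {Φ : (G.mot k).C ⥤ (G.mot K).C}
    (B : BaseChange (G.mot k).W (G.mot K).W Φ) (h : E.Stable Φ) (l : ℤ) (M : (G.mot k).C)
    (α : (G.mot k).W.CH l M) (hα : α ∈ (algF E k).Z l M) :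
    (B.tate l).hom ≫ Φ.map α ∈ (algF E K).Z l (Φ.obj M) :=
  algCyc_baseChange B (stable_motives E h) l M α hα

theorem crit_of_odd (hS : ∀ (k : G.Fld) (Y : G.Var k), SignConj (G.mot k).W (G.h Y))
    (hN : ∀ k : G.Fld, NilHom (G.mot k).W) {m : ℕ} (h : OddB G m) : Crit G m := by
  intro k Y hk hY
  refine Kill.of_CK (murreA_all G hS hN k) (hN k) (fun D α _ => ?_)
  have h1 : α ≫ D.p (2 * m + 1) ∈ D.CH (m + 1) (2 * m + 1) := by
    rw [D.mem_CH, Category.assoc, D.idem]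
  rw [h k Y hk hY D] at h1
  simpa using h1

section

variable (hS : ∀ (k : G.Fld) (Y : G.Var k), SignConj (G.mot k).W (G.h Y))
  (hN : ∀ k : G.Fld, NilHom (G.mot k).W)

include hS hN

/-- the algebraically trivial cycles of the middle weight, closed fields -/
theorem alg_mid {m : ℕ} (hM : MiddleAlg E m) {k : G.Fld} (hk : G.Closed k) (Z : G.Var k)
    (hZ : G.dim Z = 2 * m) : Kill (algF E k) (G.h Z) m (fun j => j = 2 * (m : ℤ)) := by
  refine Kill.of_CK (murreA_all G hS hN k) (hN k) (fun D α hα => ?_)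
  have h1 : α ≫ D.p (2 * m) ∈ D.CH m (2 * m) ⊓ E.Alg m (G.h Z) :=
    ⟨D.mem_CH.2 (by rw [Category.assoc, D.idem]), algCyc_comp _ α _ hα⟩
  rw [hM k Z hk hZ D] at h1
  simpa using h1

/-- the algebraically trivial cycles of the middle weight, all fields -/
theorem alg_mid' {m : ℕ} (hM : MiddleAlg E m) (k : G.Fld) (Z : G.Var k)
    (hZ : G.dim Z = 2 * m) : Kill (algF E k) (G.h Z) m (fun j => j = 2 * (m : ℤ)) := by
  obtain ⟨K, Φ, hK, ⟨B⟩, hst, hcl⟩ := E.closure_stable k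
  obtain ⟨Z', hdim, ⟨e⟩⟩ := hcl Z
  apply Kill.baseChange B (algF_baseChange E B hst)
  exact Kill.ofIso e (alg_mid E hS hN hM hK Z' (by rw [hdim]; exact hZ))

/-- the classes of the critical case are algebraically trivial -/
theorem crit_alg {m : ℕ} (hM : MiddleAlg E (m + 1)) {k : G.Fld} (hk : G.Closed k) (Y : G.Var k)
    (hY : G.dim Y = 2 * m + 1) (f : G.h Y ⟶ G.h Y) (hf : f ≫ f = f)
    (hf0 : ∀ j, j ≠ 2 * (m : ℤ) + 1 → ∀ x ∈ (G.mot k).W.gr (G.h Y) j,
      ((G.mot k).W.H.map f).hom x = 0) (w : (G.mot k).W.CH (m + 1) (G.h Y)) (hw : w ≫ f = w) :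
    w ∈ (algF E k).Z (m + 1) (G.h Y) := by
  obtain ⟨X, ⟨R⟩⟩ := E.genus hk
  obtain ⟨K, Φ, X', hK, ⟨B⟩, ⟨P⟩, hcl⟩ := E.generic hk X
  obtain ⟨V, hV, ⟨RV⟩, -⟩ := E.times Y X (by omega)
  obtain ⟨V', hV', ⟨e⟩⟩ := hcl V
  have hadd := B.additive
  -- the algebraically trivial classes of weight `2m + 2` on `(Y × X)_K`
  have h1 : Kill (algF E K) (Φ.obj (G.h Y ⊗ E.h₁ X)) ((m + 1 : ℕ) : ℤ)
      (fun j => j = 2 * ((m + 1 : ℕ) : ℤ)) := by
    refine Kill.retract (RV.map Φ) (Kill.ofIso e ?_)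
    exact alg_mid E hS hN hM hK V' (by rw [hV', hV, hY]; push_cast; ring)
  have h2 := h1.twist 1
  refine alg_of_res (show E.h₁ X ∈ E.motives k from ⟨X, rfl⟩) P R w ?_
  have h3 : res P R.i w ≫ (Φ.map (f ▷ E.h₁ X) ▷ (G.mot K).W.T 1) = res P R.i w := by
    rw [← res_comp, hw]
  rw [← h3]
  have hsrc : ((m + 1 : ℕ) : ℤ) + 1 = (m : ℤ) + 1 + 1 := by push_cast; ring
  rw [hsrc] at h2
  refine h2.kill (A := Φ.obj ((G.mot k).W.T (m + 1) ⊗ (G.mot k).W.T 1)) ?_ ?_
    (B.tate ((m : ℤ) + 1 + 1) ≪≫ Φ.mapIso ((G.mot k).W.tateAdd (m + 1) 1)) _ ?_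
  · rw [← comp_whiskerRight, ← Φ.map_comp, ← comp_whiskerRight, hf]
  · intro j hj
    refine tw_zero _ (bc_zero B (map_whisker_odd (E.odd X) f (hf0 _ ?_)))
    push_cast at hj
    omega
  · have h4 := res_alg B (show E.h₁ X' ∈ E.motives K from ⟨X', rfl⟩) (E.dual X') P R.i w
    rw [Iso.trans_hom, Functor.mapIso_hom, Category.assoc]
    exact h4

/-- **the critical case** from the algebraically trivial cycles of the middle weight -/
theorem crit_step {m : ℕ} (hM : MiddleAlg E m) (hM1 : MiddleAlg E (m + 1))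
    (hC : ∀ j < m, Crit G j) : Crit G m := by
  have hA := murreA_all G hS hN
  intro k Y hk hY f hf hf0 α _
  have hw := crit_alg E hS hN hM1 hk Y hY f hf hf0 (α ≫ f) (by rw [Category.assoc, hf])
  obtain ⟨L, ⟨hinj, hsurj⟩, ⟨⟨K, Φ, B, X, S⟩, hX, hst, hloc⟩, ⟨K₂, Φ₂, B₂, X₂, S₂⟩⟩ :=
    E.lefschetz_stable Y hk (by omega)
  have hX' : G.dim X + 1 = G.dim Y := hX
  obtain ⟨-, ⟨σ, hσ⟩, -⟩ := kunneth_step hinj hsurj (hS k Y) B S
    (kunneth_all G hS K X) B₂ S₂ (hS K₂ X₂)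
  have h1 : Kill (algF E K) (G.h X) m (fun j => j < 2 * (m : ℤ) + 1) := by
    have h2 : Kill (algF E K) (G.h X) m (fun j => j < 2 * (m : ℤ)) :=
      (kill_top_iff.2 (van_of_crit G hS hN m hC K X m (Or.inl le_rfl))).of_top
    refine (h2.union (hA K) (noPhantom_of_nilHom (hN K))
      (alg_mid' E hS hN hM K X (by omega))).mono ?_
    intro j hj
    omega
  have h3 : Kill (algF E K) (G.h X ⊗ (G.mot K).W.T 1) ((m : ℤ) + 1)
      (fun j => j < 2 * ((m : ℤ) + 1) + 1) := (h1.twist 1).mono (fun j hj => by omega)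
  have h4 := kill_high (hA k) (hN k) (hA K) (hN K) B S hloc σ hσ (algF_baseChange E B hst)
    ((m : ℤ) + 1) h3 (fun V => (van_of_crit G hS hN m hC k V.1 (m + 1) (Or.inr (by
      have := V.2; omega))).twist 1) (by omega)
  have h5 := h4 f hf (fun j hj => hf0 j (by omega)) (α ≫ f) hw
  rwa [Category.assoc, hf] at h5

theorem crit_of_alg (m : ℕ) (hM : ∀ j ≤ m + 1, MiddleAlg E j) : Crit G m := by
  induction m using Nat.strong_induction_on with
  | _ m ih =>
    exact crit_step E hS hN (hM m (by omega)) (hM (m + 1) le_rfl)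
      (fun j hj => ih j hj (fun i hi => hM i (by omega)))

end

end Pool.Agent.MAlg
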