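import Pool.Agent.Mid.Defs

/-!
# (B), (C) and the algebraically trivial cycles of the middle weight: definitions
-/

set_option autoImplicit false

open CategoryTheory MonoidalCategory Limits
open Pool.Agent.Helper15.Murre Pool.Agent.Helper58.MAD Pool.Agent.Mid

universe w v u

namespace Pool.Agent.MAlg

section two

variable {C : Type u} [Category.{v} C] [Preadditive C] [Linear ℚ C]
  [MonoidalCategory C] [SymmetricCategory C] [RigidCategory C] {F : Type w} [Field F]
  {C' : Type u} [Category.{v} C'] [Preadditive C'] [Linear ℚ C']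
  [MonoidalCategory C'] [SymmetricCategory C'] [RigidCategory C']

/-- The functor `Φ` (base change from `k` to `K`) commutes with the product with a curve `X` over
`k`: `Φ(M ⊗ h₁(X)) = Φ(M) ⊗ h₁(X_K)`, naturally in `M`. Here `h = h₁(X)` and `h' = h₁(X_K)`. -/
structure Carries (Φ : C ⥤ C') (h : C) (h' : C') where
  iso : ∀ M : C, Φ.obj (M ⊗ h) ≅ Φ.obj M ⊗ h'
  natural : ∀ {M N : C} (g : M ⟶ N),
    Φ.map (g ▷ h) ≫ (iso N).hom = (iso M).hom ≫ (Φ.map g ▷ h')

/-- The cycles `Γ_*(z)`, where `z ∈ CH_0(h)` and `Γ : h(l) ⟶ M` for some `h ∈ S`, generate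
`AlgCyc W S l M ⊆ CH_l(M)`. If `S` is the set of the motives `h₁(X)` of a set of curves, these are
the algebraically trivial cycles which are parametrised by these curves. -/
def AlgCyc (W : MotivicHomology C F) (S : Set C) (l : ℤ) (M : C) : Submodule ℚ (W.CH l M) :=
  Submodule.span ℚ {γ | ∃ h ∈ S, ∃ (z : W.T l ⟶ h ⊗ W.T l) (Γ : h ⊗ W.T l ⟶ M), γ = z ≫ Γ}

/-- The generic point of a curve `X` over `k`, with base point `x₀`: `C`, `C'` stand for the
motives over `k` and over an algebraic closure `K` of `k(X)`, `Φ` for the base change functor,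
`h = h₁(X)` and `h' = h₁(X_K)`. -/
structure GenericPoint (W : MotivicHomology C F) (W' : MotivicHomology C' F) (Φ : C ⥤ C')
    (h : C) (h' : C') where
  /-- `Φ` commutes with the product with `X` -/
  car : Carries Φ h h'
  /-- the class of `η - x₀`, where `η` is the generic point -/
  ξ : h' ⟶ W'.T 1
  /-- if the restriction of `α ∈ CH_l(M ⊗ h₁(X))` to the generic point is zero, then `α` is
  supported over finitely many points of `X` -/
  localisation : ∀ (M : C) (l : ℤ) (α : W.CH l (M ⊗ h)),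
    Φ.map α ≫ (car.iso M).hom ≫ (Φ.obj M ◁ ξ) = 0 →
      α ∈ Submodule.span ℚ {γ : W.CH l (M ⊗ h) |
        ∃ (i : W.T 0 ⟶ h) (β : W.CH l (M ⊗ W.T 0)), γ = β ≫ (M ◁ i)}

end two

variable {F : Type w} [Field F]

/-- Smooth projective curves of genus `≥ 1` with a base point, over all fields (for example: all
such curves, or the base changes of one elliptic curve over the prime field), and base change
functors. -/
structure Curves (G : Varieties.{w, v, u} F) where
  /-- the curves over `k` -/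
  Curve : G.Fld → Type u
  /-- the motive `h₁(X)` of a curve -/
  h₁ : ∀ {k : G.Fld}, Curve k → (G.mot k).C
  /-- `h₁(X)` has homology in degree `1` only -/
  odd : ∀ {k : G.Fld} (X : Curve k), (G.mot k).W.gr (h₁ X) 1 = ⊤
  /-- `h₁(X)` is self-dual: `h₁(X)ᘁ = h₁(X)(-1)` -/
  dual : ∀ {k : G.Fld} (X : Curve k), Nonempty ((h₁ X)ᘁ ≅ h₁ X ⊗ (G.mot k).W.T (-1))
  /-- there is a curve over every algebraically closed field; it has genus `≥ 1`, therefore
  `h₁(X) ⊗ h₁(X)` contains `1(1)` -/
  genus : ∀ {k : G.Fld}, G.Closed k →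
    ∃ X : Curve k, Nonempty (Retract ((G.mot k).W.T 1) (h₁ X ⊗ h₁ X))
  /-- the variety `Y × X`, if `dim Y > 0`: its motive contains `h(Y) ⊗ h₁(X)` and `h(Y)(1)` -/
  times : ∀ {k : G.Fld} (Y : G.Var k) (X : Curve k), 0 < G.dim Y →
    ∃ V : G.Var k, G.dim V = G.dim Y + 1 ∧ Nonempty (Retract (G.h Y ⊗ h₁ X) (G.h V)) ∧
      Nonempty (Retract (G.h Y ⊗ (G.mot k).W.T 1) (G.h V))

namespace Curves

variable {G : Varieties.{w, v, u} F} (E : Curves G)

/-- the motives `h₁(X)` of the curves over `k` -/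
def motives (k : G.Fld) : Set (G.mot k).C := Set.range (fun X : E.Curve k => E.h₁ X)

/-- the algebraically trivial cycles `CH_l(M)_alg` which are parametrised by the curves -/
def Alg {k : G.Fld} (l : ℤ) (M : (G.mot k).C) : Submodule ℚ ((G.mot k).W.CH l M) :=
  AlgCyc (G.mot k).W (E.motives k) l M

/-- the base change functor `Φ` takes the curves over `k` to curves over `K` and commutes with
the products with them -/
def Stable {k K : G.Fld} (Φ : (G.mot k).C ⥤ (G.mot K).C) : Prop :=
  ∀ X : E.Curve k, ∃ X' : E.Curve K, Nonempty (Carries Φ (E.h₁ X) (E.h₁ X'))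

end Curves

/-- The facts on the curves and base change, for the formal setting `G` of the Chow motives over
all fields. -/
structure Families (G : Geometry.{w, v, u} F) extends Curves G.toVarieties where
  /-- up to a twist, `h(Y)` is a direct summand of the motive of a variety of positive dimension
  (if `dim Y = 0`, embed `Y` in a projective space and blow it up) -/
  positive : ∀ {k : G.Fld} (Y : G.Var k), ∃ (Y' : G.Var k) (m : ℤ), 0 < G.dim Y' ∧
    Nonempty (Retract (G.h Y) (G.h Y' ⊗ (G.mot k).W.T m))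
  /-- the algebraic closure of `k`: as in `G`; the curves over `k` give curves over the closure -/
  closure_stable : ∀ k : G.Fld, ∃ (K : G.Fld) (Φ : (G.mot k).C ⥤ (G.mot K).C), G.Closed K ∧
    Nonempty (BaseChange (G.mot k).W (G.mot K).W Φ) ∧ toCurves.Stable Φ ∧
    ∀ Y : G.Var k, ∃ Y' : G.Var K, G.dim Y' = G.dim Y ∧ Nonempty (Φ.obj (G.h Y) ≅ G.h Y')
  /-- the hyperplane sections of `Y` over an algebraically closed field: as in `G`; the curves
  over `k` give curves over the function field of the dual projective space -/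
  lefschetz_stable : ∀ {k : G.Fld} (Y : G.Var k), G.Closed k → 0 < G.dim Y →
    ∃ L : G.h Y ⟶ G.h Y ⊗ (G.mot k).W.T 1,
      (InjH (G.mot k).W L (G.dim Y + 1) ∧ SurjH (G.mot k).W L (G.dim Y + 1)) ∧
      (∃ S : G.Section (G.h Y) (G.dim Y) L, G.dim S.X + 1 = G.dim Y ∧ toCurves.Stable S.Φ ∧
        S.sec.Localisation (fun V : {V : G.Var k // G.dim V < G.dim Y} => G.h V.1)) ∧
      Nonempty (G.Section (G.h Y ⊗ G.h Y) (2 * G.dim Y) (squareL (G.mot k).W L))
  /-- the generic point of a curve `X` over an algebraically closed field `k`, and base change to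
  an algebraic closure `K` of `k(X)` -/
  generic : ∀ {k : G.Fld}, G.Closed k → ∀ X : Curve k,
    ∃ (K : G.Fld) (Φ : (G.mot k).C ⥤ (G.mot K).C) (X' : Curve K), G.Closed K ∧
      Nonempty (BaseChange (G.mot k).W (G.mot K).W Φ) ∧
      Nonempty (GenericPoint (G.mot k).W (G.mot K).W Φ (h₁ X) (h₁ X')) ∧
      ∀ Y : G.Var k, ∃ Y' : G.Var K, G.dim Y' = G.dim Y ∧ Nonempty (Φ.obj (G.h Y) ≅ G.h Y')

/-- Murre's conjectures (A), (B), (C) for all motives over all fields. -/
def MurreABC (G : Geometry.{w, v, u} F) : Prop :=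
  ∀ (k : G.Fld) (M : (G.mot k).C), MurreA (G.mot k).W M ∧ MurreC (G.mot k).W M ∧
    ∃ D : CK (G.mot k).W M, D.MurreB

/-- (B) for the cycles of dimension `m + 1` and the middle weight on the varieties `Z` of dimension
`2m + 1` over algebraically closed fields: `CH_{m+1}(Z_{2m+1}) = 0` for every Chow-Kunneth
decomposition of `h(Z)`. -/
def OddB (G : Geometry.{w, v, u} F) (m : ℕ) : Prop :=
  ∀ (k : G.Fld) (Z : G.Var k), G.Closed k → G.dim Z = 2 * m + 1 →
    ∀ D : CK (G.mot k).W (G.h Z), D.CH (m + 1) (2 * m + 1) = ⊥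

/-- `dim Z = 2m + 1`, the base field is algebraically closed: if `θ : h(Z) ⟶ h(Z)` is zero on
`H_j(Z)` for all `j ≠ 2m + 1`, then `θ` is locally nilpotent on `CH_{m+1}(Z)`. -/
def OddNil (G : Geometry.{w, v, u} F) (m : ℕ) : Prop :=
  ∀ (k : G.Fld) (Z : G.Var k), G.Closed k → G.dim Z = 2 * m + 1 → ∀ θ : G.h Z ⟶ G.h Z,
    (∀ j, j ≠ 2 * (m : ℤ) + 1 → ∀ x ∈ (G.mot k).W.gr (G.h Z) j,
      ((G.mot k).W.H.map θ).hom x = 0) →
    ∀ α : (G.mot k).W.CH (m + 1) (G.h Z), ∃ r : ℕ, α ≫ pw θ r = 0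

variable {G : Geometry.{w, v, u} F} (E : Families G)

/-- The algebraic part of (D) for the cycles of dimension `m` on the varieties `Z` of dimension
`2m` over algebraically closed fields: `CH_m(Z_{2m})_alg = 0` for every Chow-Kunneth decomposition
of `h(Z)`. -/
def MiddleAlg (m : ℕ) : Prop :=
  ∀ (k : G.Fld) (Z : G.Var k), G.Closed k → G.dim Z = 2 * m →
    ∀ D : CK (G.mot k).W (G.h Z), D.CH m (2 * m) ⊓ E.Alg m (G.h Z) = ⊥

/-- `dim Z = 2m`, the base field is algebraically closed: if `θ : h(Z) ⟶ h(Z)` is zero on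
`H_j(Z)` for all `j ≠ 2m`, then `θ` is locally nilpotent on `CH_m(Z)_alg`. -/
def MiddleAlgNil (m : ℕ) : Prop :=
  ∀ (k : G.Fld) (Z : G.Var k), G.Closed k → G.dim Z = 2 * m → ∀ θ : G.h Z ⟶ G.h Z,
    (∀ j, j ≠ 2 * (m : ℤ) → ∀ x ∈ (G.mot k).W.gr (G.h Z) j,
      ((G.mot k).W.H.map θ).hom x = 0) →
    ∀ α ∈ E.Alg m (G.h Z), ∃ r : ℕ, α ≫ pw θ r = 0

end Pool.Agent.MAlg
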