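import Pool.Agent.MAlg.Conv

/-!
# (B), (C) and the algebraically trivial cycles of the middle weight
-/

set_option autoImplicit false
set_option linter.unusedSectionVars false

open CategoryTheory MonoidalCategory Limits
open Pool.Agent.Helper15.Murre Pool.Agent.Helper58.MAD Pool.Agent.Helper90.MAD Pool.Agent.Mid
open Pool.Agent.AbAlg

universe w v u

namespace Pool.Agent.MAlg

variable {F : Type w} [Field F] {G : Geometry.{w, v, u} F}

section levels

variable (hS : Sign G) (hN : Nilpotent G)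

include hS hN

theorem rangeB_of_crit (m : ℕ) (hC : ∀ j ≤ m, Crit G j) : RangeB G m := by
  rintro k Y N ⟨R⟩ l hl D i hi
  rw [eq_bot_iff]
  intro α hα
  rw [D.mem_CH] at hα
  have h0 : VanAt (G.mot k).W (G.h Y) l :=
    van_of_crit G hS hN (m + 1) (fun j hj => hC j (by omega)) k Y l (by push_cast; omega)
  have h1 := (VanAt.retract R h0) (D.p i) (D.idem i) (by
    intro j hj x hx
    rw [D.homology i j x hx, if_neg (by omega)]) α
  rw [hα] at h1
  simpa using h1

theorem level_odd (m : ℕ) : RangeB G m ↔ ∀ j ≤ m, OddB G j := by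
  constructor
  · intro h j hj k Z _ _ D
    exact h k Z (G.h Z) ⟨Retract.refl _⟩ (j + 1) (Or.inl (by
      have : (j : ℤ) ≤ m := by exact_mod_cast hj
      omega)) D (2 * j + 1) (by omega)
  · intro h
    exact rangeB_of_crit hS hN m (fun j hj => crit_of_odd hS hN (h j hj))

theorem level_of_alg (E : Families G) (m : ℕ) (h : ∀ j ≤ m + 1, MiddleAlg E j) :
    RangeB G m :=
  rangeB_of_crit hS hN m (fun j hj => crit_of_alg E hS hN j (fun i hi => h i (by omega)))

theorem alg_of_level (E : Families G) (m : ℕ) (h : RangeB G m) (j : ℕ) (h1 : 1 ≤ j)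
    (hj : j ≤ m) : MiddleAlg E j := by
  intro k Z _ hZ D
  refine alg_zero E (fun X => ?_) D
  obtain ⟨V, hV, ⟨R⟩, -⟩ := E.times Z X (by omega)
  refine Kill.of_CK (murreA_all G hS hN k) (hN k) (fun D' α _ => ?_)
  have h2 := h k V (G.h Z ⊗ E.h₁ X) ⟨R⟩ (j + 1) (Or.inl (by
      have : (j : ℤ) ≤ m := by exact_mod_cast hj
      omega)) D' (2 * j + 1) (by omega)
  have h3 := D'.comp_p_mem α (2 * j + 1)
  rw [h2] at h3
  simpa using h3

theorem murreABC_of_crit (hC : ∀ m, Crit G m) : MurreABC G := by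
  have hV : ∀ (k : G.Fld) (N : (G.mot k).C) (l : ℤ), VanAt (G.mot k).W N l := by
    intro k N l
    obtain ⟨Y, t, ⟨R⟩⟩ := G.generated N
    have h1 := (van_of_crit G hS hN (l - t).toNat (fun j _ => hC j) k Y (l - t)
      (Or.inl (by omega))).twist t
    rw [sub_add_cancel] at h1
    exact VanAt.retract R h1
  have hB : ∀ (k : G.Fld) (M : (G.mot k).C) (D : CK (G.mot k).W M), D.MurreB := by
    intro k M D
    rw [CK.MurreB_iff]
    intro l i hi α
    exact hV k M l (D.p i) (D.idem i) (by
      intro j hj x hx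
      rw [D.homology i j x hx, if_neg (by omega)]) α
  intro k M
  obtain ⟨D⟩ := murreA_all G hS hN k M
  exact ⟨⟨D⟩, murreC_of_murreB (hB k), D, hB k M D⟩

end levels

theorem tfae (P : Poincare G) (E : Families G) : List.TFAE [
    MurreABC G,
    ConjA G ∧ ∀ m : ℕ, OddB G m,
    ConjA G ∧ ∀ m : ℕ, MiddleAlg E m,
    Sign G ∧ ∀ m : ℕ, OddNil G m,
    Sign G ∧ ∀ m : ℕ, MiddleAlgNil E m] := by
  have hsign : ConjA G → Sign G := fun hA k Y => signConj_of_murreA (hA k _)
  tfae_have 1 → 2 := fun h => ⟨fun k M => (h k M).1, oddB_of_abc h⟩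
  tfae_have 1 → 3 := fun h => ⟨fun k M => (h k M).1, middleAlg_of_abc E h⟩
  tfae_have 1 → 4 := fun h => ⟨hsign fun k M => (h k M).1, oddNil_of_abc h⟩
  tfae_have 1 → 5 := fun h => ⟨hsign fun k M => (h k M).1, middleAlgNil_of_abc E h⟩
  tfae_have 2 → 1 := by
    rintro ⟨hA, hB⟩
    have hS := hsign hA
    have hN : Nilpotent G := nilHom_of_oddB P E hA hB
    exact murreABC_of_crit hS hN (fun m => crit_of_odd hS hN (hB m))
  tfae_have 3 → 1 := by
    rintro ⟨hA, hM⟩
    have hS := hsign hA
    have hN : Nilpotent G := nilHom_of_middleAlg P E hA hM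
    exact murreABC_of_crit hS hN (fun m => crit_of_alg E hS hN m (fun j _ => hM j))
  tfae_have 4 → 1 := by
    rintro ⟨hS, hB⟩
    have hN : Nilpotent G := nilHom_of_oddNil P E hB
    refine murreABC_of_crit hS hN (fun m => crit_of_odd hS hN ?_)
    intro k Z hk hZ D
    rw [eq_bot_iff]
    intro α hα
    rw [D.mem_CH] at hα
    obtain ⟨r, hr⟩ := hB m k Z hk hZ (D.p (2 * m + 1)) (fun j hj x hx => by
      rw [D.homology _ j x hx, if_neg hj]) α
    have h3 : ∀ r : ℕ, α ≫ pw (D.p (2 * m + 1)) r = α := by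
      intro r
      induction r with
      | zero => exact Category.comp_id _
      | succ r ih =>
        change α ≫ pw (D.p (2 * m + 1)) r ≫ D.p (2 * m + 1) = α
        rw [← Category.assoc, ih, hα]
    rw [h3] at hr
    simpa using hr
  tfae_have 5 → 1 := by
    rintro ⟨hS, hM⟩
    have hN : Nilpotent G := nilHom_of_middleAlgNil P E hM
    refine murreABC_of_crit hS hN (fun m => crit_of_alg E hS hN m (fun j _ => ?_))
    intro k Z hk hZ D
    rw [eq_bot_iff]
    rintro α ⟨hα, hα'⟩
    have hα1 := D.mem_CH.1 hα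
    obtain ⟨r, hr⟩ := hM j k Z hk hZ (D.p (2 * j)) (fun i hi x hx => by
      rw [D.homology _ i x hx, if_neg hi]) α hα'
    have h3 : ∀ r : ℕ, α ≫ pw (D.p (2 * j)) r = α := by
      intro r
      induction r with
      | zero => exact Category.comp_id _
      | succ r ih =>
        change α ≫ pw (D.p (2 * j)) r ≫ D.p (2 * j) = α
        rw [← Category.assoc, ih, hα1]
    rw [h3] at hr
    simpa using hr
  tfae_finish

end Pool.Agent.MAlg
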