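import Pool.Agent.MAlg.Kill

/-!
# The case `2l > n`: classes whose restriction to the generic section only sees high weights
-/

set_option autoImplicit false
set_option linter.unusedSectionVars false

open CategoryTheory MonoidalCategory Limits TensorProduct
open Pool.Agent.Helper15.Murre Pool.Agent.Helper58.MAD Pool.Agent.Helper90.MAD Pool.Agent.Mid
open Pool.Agent.AbAlg

universe w v u

namespace Pool.Agent.MAlg

variable {C : Type u} [Category.{v} C] [Preadditive C] [Linear ℚ C]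
  [MonoidalCategory C] [SymmetricCategory C] [MonoidalPreadditive C] [MonoidalLinear ℚ C]
  [RigidCategory C] [HasBinaryBiproducts C] [IsIdempotentComplete C]
  {F : Type w} [Field F] {W : MotivicHomology C F}
variable {C' : Type u} [Category.{v} C'] [Preadditive C'] [Linear ℚ C']
  [MonoidalCategory C'] [SymmetricCategory C'] [MonoidalPreadditive C'] [MonoidalLinear ℚ C']
  [RigidCategory C'] [HasBinaryBiproducts C'] [IsIdempotentComplete C']
  {W' : MotivicHomology C' F} {Φ : C ⥤ C'}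

/-- a class `x` of weights `< 2l`, `2l > n`, is zero if its restriction to the generic section lies
in a set `T` of classes stable under correspondences and unchanged by the truncations at `r`, where
`r = 2l > n + 1` or `r = 2l + 1` -/
theorem high_gen (hA : ∀ M : C, MurreA W M) (hN : NilHom W) (hA' : ∀ M : C', MurreA W' M)
    (hN' : NilHom W') (B : BaseChange W W' Φ)
    {N : C} {n : ℤ} {L : N ⟶ N ⊗ W.T 1} {P : C'} (S : GenericSection W W' Φ N n L P)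
    {ι : Type u} {V : ι → C} (hloc : S.Localisation V) (σ : N ⊗ W.T 1 ⟶ N)
    (hσ : ∀ j, n + 1 < j → ∀ y ∈ W.gr N j, (W.H.map (L ≫ σ)).hom y = y)
    (l r : ℤ) (hr : n + 1 < r) (hr1 : 2 * l ≤ r) (hr2 : r ≤ 2 * l + 1)
    (T : Set (Φ.obj (W.T l) ⟶ P ⊗ W'.T 1)) (hT : ∀ y ∈ T, ∀ g, y ≫ g ∈ T)
    (hP : ∀ y ∈ T, ∀ g, IsTrunc W' g r → y ≫ g = y)
    (hV : ∀ i, VanAt W (V i ⊗ W.T 1) (l + 1))
    (f : N ⟶ N) (hf0 : ∀ j, 2 * l ≤ j → ∀ x ∈ W.gr N j, (W.H.map f).hom x = 0)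
    (x : W.T l ⟶ N) (hxf : x ≫ f = x) (hxT : Φ.map x ≫ S.b ∈ T) : x = 0 := by
  have hadd := B.additive
  have hfaith := B.faithful
  obtain ⟨w', hw'⟩ := exists_trunc (hA N) r
  obtain ⟨w'', hw''⟩ := exists_trunc (hA N) (2 * l + 2)
  obtain ⟨g, hg⟩ := exists_trunc (hA' (P ⊗ W'.T 1)) r
  -- (1) restriction to the generic section
  let u : P ⊗ W'.T 1 ⟶ P ⊗ W'.T 1 := S.a ≫ Φ.map (σ ≫ w') ≫ S.b
  have hgu : W'.H.map (g ≫ u ≫ g) = W'.H.map g := by
    apply W'.hext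
    intro j z hz
    rw [W'.map_comp_apply]
    by_cases hj : j < r
    · rw [hg.zero j hj z hz, map_zero]
    · rw [hg.one j (by omega) z hz, W'.map_comp_apply]
      obtain ⟨y, hy, hzy⟩ := S.surj_b j (by omega) z hz
      have hu : (W'.H.map u).hom z = z := by
        change (W'.H.map (S.a ≫ Φ.map (σ ≫ w') ≫ S.b)).hom z = z
        rw [← hzy, ← W'.map_comp_apply]
        have h1 : S.b ≫ S.a ≫ Φ.map (σ ≫ w') ≫ S.b = Φ.map ((L ≫ σ) ≫ w') ≫ S.b := by
          rw [← Category.assoc, S.b_a, ← Category.assoc, ← Φ.map_comp]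
          simp only [Category.assoc]
        rw [h1, W'.map_comp_apply, bc_id B (f := (L ≫ σ) ≫ w') (j := j) (fun y hy => by
          rw [W.map_comp_apply, hσ j (by omega) y hy, hw'.one j (by omega) y hy]) y hy]
      rw [hu, hg.one j (by omega) z hz]
  obtain ⟨m, hm⟩ := unip hN' (A := Φ.obj (W.T l)) T g u hg.idem
    (fun y hy => hT y hy _) (fun y hy => hP y hy g hg) hgu
  let z : W.T l ⟶ N := x ≫ pw (𝟙 _ - L ≫ σ ≫ w') m
  have hzb : Φ.map z ≫ S.b = 0 := by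
    change Φ.map (x ≫ pw (𝟙 _ - L ≫ σ ≫ w') m) ≫ S.b = 0
    have hc : Φ.map (𝟙 _ - L ≫ σ ≫ w') ≫ S.b = S.b ≫ (𝟙 _ - u) := by
      change _ = S.b ≫ (𝟙 _ - S.a ≫ Φ.map (σ ≫ w') ≫ S.b)
      rw [Φ.map_sub, CategoryTheory.Functor.map_id, Preadditive.sub_comp, Preadditive.comp_sub,
        Category.id_comp, Category.comp_id]
      congr 1
      rw [← Category.assoc S.b, S.b_a, Φ.map_comp L, Category.assoc]
    rw [Φ.map_comp, map_pw, Category.assoc, pw_comp hc m, ← Category.assoc]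
    exact hm _ hxT
  -- (2) the members
  have hzM : ∃ M : ℕ, (z ▷ W.T 1) ≫ pw (𝟙 _ - σ ≫ w'' ≫ L) M = 0 := by
    clear_value z
    have key := hloc l z hzb
    clear hzb
    induction key using Submodule.span_induction with
    | mem γ hγ =>
      obtain ⟨i, mm, ζ, rfl⟩ := hγ
      exact member_van hA hN mm σ hσ l (hV i) (by omega) hw'' ζ
    | zero =>
      refine ⟨0, ?_⟩
      have h2 : (0 : W.T l ⟶ N) ▷ W.T 1 = 0 := MonoidalPreadditive.zero_whiskerRight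
      rw [h2, zero_comp]
    | add γ δ _ _ hγ hδ =>
      obtain ⟨M, hM⟩ := hγ
      obtain ⟨M', hM'⟩ := hδ
      refine ⟨max M M', ?_⟩
      rw [MonoidalPreadditive.add_whiskerRight, Preadditive.add_comp,
        pw_zero_mono _ _ (le_max_left M M') hM, pw_zero_mono _ _ (le_max_right M M') hM',
        add_zero]
    | smul q γ _ hγ =>
      obtain ⟨M, hM⟩ := hγ
      refine ⟨M, ?_⟩
      rw [MonoidalLinear.smul_whiskerRight, Linear.smul_comp, hM, smul_zero]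
  obtain ⟨M, hM⟩ := hzM
  -- (3) conclusion
  set f₁ : N ⊗ W.T 1 ⟶ N ⊗ W.T 1 := f ▷ W.T 1 with hf₁
  have hf₁0 : ∀ j, 2 * l + 2 ≤ j → ∀ x ∈ W.gr (N ⊗ W.T 1) j, (W.H.map f₁).hom x = 0 :=
    fun j hj => tw_zero f (hf0 (j - 2 * 1) (by omega))
  let R : N ⊗ W.T 1 ⟶ N ⊗ W.T 1 :=
    𝟙 _ - (pw (𝟙 _ - L ≫ σ ≫ w') m ▷ W.T 1) ≫ pw (𝟙 _ - σ ≫ w'' ≫ L) M
  have hxR : (x ▷ W.T 1) ≫ R = x ▷ W.T 1 := by
    change (x ▷ W.T 1) ≫ (𝟙 _ - (pw (𝟙 _ - L ≫ σ ≫ w') m ▷ W.T 1) ≫ pw (𝟙 _ - σ ≫ w'' ≫ L) M) = _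
    rw [Preadditive.comp_sub, Category.comp_id, ← Category.assoc, ← comp_whiskerRight]
    rw [show (x ≫ pw (𝟙 _ - L ≫ σ ≫ w') m) ▷ W.T 1 = z ▷ W.T 1 from rfl, hM, sub_zero]
  have hR : ∀ j, j < 2 * l + 2 → ∀ z ∈ W.gr (N ⊗ W.T 1) j, (W.H.map R).hom z = 0 := by
    intro j hj z hz
    change (W.H.map (𝟙 _ - _)).hom z = 0
    rw [map_one_sub, W.map_comp_apply]
    have h1 : (W.H.map (pw (𝟙 _ - L ≫ σ ≫ w') m ▷ W.T 1)).hom z = z := by
      refine tw_id _ (pw_id _ ?_ m) z hz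
      intro y hy
      rw [map_one_sub, ← Category.assoc, W.map_comp_apply,
        hw'.zero (j - 2 * 1) (by omega) _ (W.map_gr _ _ _ hy), sub_zero]
    have h2 : (W.H.map (pw (𝟙 _ - σ ≫ w'' ≫ L) M)).hom z = z := by
      refine pw_id _ ?_ M z hz
      intro y hy
      rw [map_one_sub, W.map_comp_apply, W.map_comp_apply,
        hw''.zero j hj _ (W.map_gr _ _ _ hy), map_zero, sub_zero]
    rw [h1, h2, sub_self]
  have hx₁ : x ▷ W.T 1 = 0 := by
    apply nil_kill hN (x ▷ W.T 1) (f₁ ≫ R ≫ f₁)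
    · apply W.hext
      intro j z hz
      rw [W.map_comp_apply]
      by_cases hj : 2 * l + 2 ≤ j
      · rw [hf₁0 j hj z hz, map_zero]
        rfl
      · rw [W.map_comp_apply, hR j (by omega) _ (W.map_gr _ _ _ hz), map_zero]
        rfl
    · have h3 : (x ▷ W.T 1) ≫ f₁ = x ▷ W.T 1 := by
        rw [hf₁, ← comp_whiskerRight, hxf]
      rw [← Category.assoc, h3, ← Category.assoc, hxR, h3]
  exact whisker_faithful (W := W) x 1 hx₁

/-- weights `< 2l`, `2l > n + 1`: only (B) on the generic section is needed -/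
theorem van_high_top (hA : ∀ M : C, MurreA W M) (hN : NilHom W) (hA' : ∀ M : C', MurreA W' M)
    (hN' : NilHom W') (B : BaseChange W W' Φ)
    {N : C} {n : ℤ} {L : N ⟶ N ⊗ W.T 1} {P : C'} (S : GenericSection W W' Φ N n L P)
    {ι : Type u} {V : ι → C} (hloc : S.Localisation V) (σ : N ⊗ W.T 1 ⟶ N)
    (hσ : ∀ j, n + 1 < j → ∀ y ∈ W.gr N j, (W.H.map (L ≫ σ)).hom y = y)
    (l : ℤ) (hP : VanAt W' (P ⊗ W'.T 1) l) (hV : ∀ i, VanAt W (V i ⊗ W.T 1) (l + 1))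
    (hl : n + 1 < 2 * l) : VanAt W N l := by
  intro f hf hf0 α
  exact high_gen hA hN hA' hN' B S hloc σ hσ l (2 * l) hl le_rfl (by omega) Set.univ
    (fun _ _ _ => trivial) (fun y _ g hg => hP.trunc hg le_rfl (B.tate l) y) hV f hf0 (α ≫ f)
    (by rw [Category.assoc, hf]) trivial

/-- classes of weights `< 2l`, `2l > n`, in a family `Z` of subgroups of the Chow groups; the
classes of the family `Z'` on the generic section of weights `≤ 2(l - 1)` are zero -/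
theorem kill_high (hA : ∀ M : C, MurreA W M) (hN : NilHom W) (hA' : ∀ M : C', MurreA W' M)
    (hN' : NilHom W') (B : BaseChange W W' Φ)
    {N : C} {n : ℤ} {L : N ⟶ N ⊗ W.T 1} {P : C'} (S : GenericSection W W' Φ N n L P)
    {ι : Type u} {V : ι → C} (hloc : S.Localisation V) (σ : N ⊗ W.T 1 ⟶ N)
    (hσ : ∀ j, n + 1 < j → ∀ y ∈ W.gr N j, (W.H.map (L ≫ σ)).hom y = y)
    {Z : Fam W} {Z' : Fam W'} (hZ : ∀ (l : ℤ) (M : C) (α : W.CH l M), α ∈ Z.Z l M →
      (B.tate l).hom ≫ Φ.map α ∈ Z'.Z l (Φ.obj M))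
    (l : ℤ) (hP : Kill Z' (P ⊗ W'.T 1) l (fun j => j < 2 * l + 1))
    (hV : ∀ i, VanAt W (V i ⊗ W.T 1) (l + 1)) (hl : n < 2 * l) :
    Kill Z N l (fun j => j < 2 * l) := by
  intro f hf hf0 α hα
  refine high_gen hA hN hA' hN' B S hloc σ hσ l (2 * l + 1) (by omega) (by omega) le_rfl
    {y | (B.tate l).hom ≫ y ∈ Z'.Z l (P ⊗ W'.T 1)} ?_ ?_ hV f
    (fun j hj => hf0 j (by omega)) (α ≫ f) (by rw [Category.assoc, hf]) ?_
  · intro y hy g
    change (B.tate l).hom ≫ y ≫ g ∈ Z'.Z l (P ⊗ W'.T 1)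
    rw [← Category.assoc]
    exact Z'.comp _ g hy
  · intro y hy g hg
    exact hP.trunc hg (B.tate l) y hy
  · change (B.tate l).hom ≫ Φ.map (α ≫ f) ≫ S.b ∈ Z'.Z l (P ⊗ W'.T 1)
    rw [← Category.assoc]
    exact Z'.comp _ _ (hZ l N _ (Z.comp α f hα))

end Pool.Agent.MAlg
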