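import Pool.Agent.MAlg.Defs
import Pool.Agent.MAlg.High

/-!
# The induction on the dimension: (B) from the critical case `CH_{j+1}(Y_{2j+1})`, `dim Y = 2j + 1`
-/

set_option autoImplicit false
set_option linter.unusedSectionVars false

open CategoryTheory MonoidalCategory Limits TensorProduct
open Pool.Agent.Helper15.Murre Pool.Agent.Helper58.MAD Pool.Agent.Helper90.MAD Pool.Agent.Mid
open Pool.Agent.AbAlg

universe w v u

namespace Pool.Agent.MAlg

section one

variable {C : Type u} [Category.{v} C] [Preadditive C] [Linear ℚ C]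
  [MonoidalCategory C] [SymmetricCategory C] [MonoidalPreadditive C] [MonoidalLinear ℚ C]
  [RigidCategory C] [HasBinaryBiproducts C] [IsIdempotentComplete C]
  {F : Type w} [Field F] {W : MotivicHomology C F}
variable {C' : Type u} [Category.{v} C'] [Preadditive C'] [Linear ℚ C']
  [MonoidalCategory C'] [SymmetricCategory C'] [MonoidalPreadditive C'] [MonoidalLinear ℚ C']
  [RigidCategory C'] [HasBinaryBiproducts C'] [IsIdempotentComplete C']
  {W' : MotivicHomology C' F} {Φ : C ⥤ C'}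

/-- weights `< n` and `n < 2l`: from the generic section -/
theorem low_part (hA' : ∀ M : C', MurreA W' M) (hN' : NilHom W') (B : BaseChange W W' Φ)
    {N : C} {n : ℤ} {L : N ⟶ N ⊗ W.T 1} {P : C'} (S : GenericSection W W' Φ N n L P)
    (ρ : N ⊗ W.T 1 ⟶ N)
    (hρ : ∀ j, j ≤ n + 1 → ∀ z ∈ W.gr (N ⊗ W.T 1) j, (W.H.map (ρ ≫ L)).hom z = z)
    (l : ℤ) (hP : VanAt W' (P ⊗ W'.T 1) (l + 1)) (hl : n ≤ 2 * l) :
    Kill (topFam W) N l (fun j => j < n) := by
  intro f hf hf0 α _
  refine low_aux hA' hN' B S ρ hρ l (n + 2) le_rfl f hf (fun j hj => hf0 j (by omega)) α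
    (fun w hw y => ?_)
  exact hP.trunc hw (by omega) (B.tate (l + 1) ≪≫ Φ.mapIso (W.tateAdd l 1)) _

end one

variable {F : Type w} [Field F] (G : Geometry.{w, v, u} F)

/-- the critical case: `CH_{m+1}(Y_{2m+1}) = 0` for `dim Y = 2m + 1` -/
def Crit (m : ℕ) : Prop :=
  ∀ (k : G.Fld) (Y : G.Var k), G.Closed k → G.dim Y = 2 * m + 1 →
    Kill (topFam (G.mot k).W) (G.h Y) (m + 1) (fun j => j = 2 * (m : ℤ) + 1)

variable (hS : ∀ (k : G.Fld) (Y : G.Var k), SignConj (G.mot k).W (G.h Y))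
  (hN : ∀ k : G.Fld, NilHom (G.mot k).W)

include hS hN

theorem key (m : ℕ) (hC : ∀ j < m, Crit G j) : ∀ (n : ℕ) (k : G.Fld) (Y : G.Var k),
    G.dim Y < n → ∀ l : ℤ, (l ≤ m ∨ G.dim Y < l + m) → VanAt (G.mot k).W (G.h Y) l := by
  have hA := murreA_all G hS hN
  intro n
  induction n with
  | zero =>
    intro k Y hY
    have := G.dim_nonneg Y
    push_cast at hY
    omega
  | succ n ih =>
    have hclosed : ∀ (k : G.Fld), G.Closed k → ∀ (Y : G.Var k), G.dim Y < ((n + 1 : ℕ) : ℤ) →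
        ∀ l : ℤ, (l ≤ m ∨ G.dim Y < l + m) → VanAt (G.mot k).W (G.h Y) l := by
      intro k hk Y hY l hl
      push_cast at hY
      rcases (G.dim_nonneg Y).lt_or_eq with hpos | h0
      · obtain ⟨L, ⟨hinj, hsurj⟩, ⟨⟨K, Φ, B, X, S⟩, hX, hloc⟩, ⟨K₂, Φ₂, B₂, X₂, S₂⟩⟩ :=
          G.lefschetz Y hpos
        have hX' : G.dim X + 1 = G.dim Y := hX
        obtain ⟨-, ⟨σ, hσ⟩, ρ, hρ⟩ := kunneth_step hinj hsurj (hS k Y) B S
          (kunneth_all G hS K X) B₂ S₂ (hS K₂ X₂)
        rcases le_or_gt (2 * l) (G.dim Y) with h2 | h2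
        · exact van_low (hA K) (hN K) B S ρ hρ l ((ih K X (by omega) l (by omega)).twist 1) h2
        · rcases eq_or_lt_of_le (show G.dim Y + 1 ≤ 2 * l by omega) with h3 | h3
          · obtain ⟨j, rfl⟩ : ∃ j : ℕ, l = (j : ℤ) + 1 := ⟨(l - 1).toNat, by omega⟩
            rw [← kill_top_iff]
            refine ((low_part (hA K) (hN K) B S ρ hρ ((j : ℤ) + 1)
              ((ih K X (by omega) _ (by omega)).twist 1) (by omega)).union (hA k)
              (noPhantom_of_nilHom (hN k)) (hC j (by omega) k Y hk (by omega))).mono ?_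
            intro i hi
            omega
          · have hP : VanAt (G.mot K).W (G.h X ⊗ (G.mot K).W.T 1) l := by
              have := (ih K X (by omega) (l - 1) (by omega)).twist 1
              rwa [sub_add_cancel] at this
            exact van_high_top (hA k) (hN k) (hA K) (hN K) B S (hloc hk) σ hσ l hP
              (fun V => (ih k V.1 (by have := V.2; omega) l (by have := V.2; omega)).twist 1) h3
      · exact van_zero G hN k Y h0.symm l
    intro k Y hY l hl
    obtain ⟨K, Φ, hK, ⟨B⟩, hcl⟩ := G.closure k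
    obtain ⟨Y', hdim, ⟨e⟩⟩ := hcl Y
    apply VanAt.baseChange B
    exact VanAt.retract ⟨e.hom, e.inv, e.hom_inv_id⟩
      (hclosed K hK Y' (by rw [hdim]; exact hY) l (by rw [hdim]; exact hl))

theorem van_of_crit (m : ℕ) (hC : ∀ j < m, Crit G j) (k : G.Fld) (Y : G.Var k) (l : ℤ)
    (hl : l ≤ m ∨ G.dim Y < l + m) : VanAt (G.mot k).W (G.h Y) l := by
  have h0 := G.dim_nonneg Y
  exact key G hS hN m hC ((G.dim Y).toNat + 1) k Y (by push_cast; omega) l hl

end Pool.Agent.MAlg
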