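import Pool.Agent.MAlg.Trick

/-!
# Locally nilpotent homologically trivial endomorphisms
-/

set_option autoImplicit false
set_option linter.unusedSectionVars false

open CategoryTheory MonoidalCategory Limits
open Pool.Agent.Helper15.Murre Pool.Agent.Helper58.MAD Pool.Agent.Helper90.MAD Pool.Agent.Mid
open Pool.Agent.Helper58.MAD.NilAux Pool.Agent.AbAlg

universe w v u

namespace Pool.Agent.MAlg

section defs

variable {C : Type u} [Category.{v} C] [Preadditive C] [Linear ℚ C]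
  [MonoidalCategory C] [SymmetricCategory C] [RigidCategory C] {F : Type w} [Field F]
  {W : MotivicHomology C F}

/-- the homologically trivial endomorphisms of `N` (only the idempotent ones, if `b` is false) are
locally nilpotent on the classes of `Z ⊆ CH_l(N)` -/
def LocG [MonoidalPreadditive C] [MonoidalLinear ℚ C] (b : Prop) (Z : Fam W) (N : C) (l : ℤ) :
    Prop :=
  ∀ θ : N ⟶ N, W.H.map θ = 0 → (b ∨ θ ≫ θ = θ) → ∀ α ∈ Z.Z l N, ∃ r : ℕ, α ≫ pw θ r = 0

/-- the homologically trivial endomorphisms of `N` (only the idempotent ones, if `b` is false) are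
nilpotent -/
def NilG (b : Prop) (W : MotivicHomology C F) (N : C) : Prop :=
  ∀ θ : N ⟶ N, W.H.map θ = 0 → (b ∨ θ ≫ θ = θ) → ∃ r : ℕ, pw θ r = 0

end defs

variable {C : Type u} [Category.{v} C] [Preadditive C] [Linear ℚ C]
  [MonoidalCategory C] [SymmetricCategory C] [MonoidalPreadditive C] [MonoidalLinear ℚ C]
  [RigidCategory C] [HasBinaryBiproducts C] [IsIdempotentComplete C]
  {F : Type w} [Field F] {W : MotivicHomology C F}
variable {C' : Type u} [Category.{v} C'] [Preadditive C'] [Linear ℚ C']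
  [MonoidalCategory C'] [SymmetricCategory C'] [MonoidalPreadditive C'] [MonoidalLinear ℚ C']
  [RigidCategory C'] [HasBinaryBiproducts C'] [IsIdempotentComplete C']
  {W' : MotivicHomology C' F} {Φ : C ⥤ C'}

theorem LocG.retract {b : Prop} {Z : Fam W} {N M : C} {l : ℤ} (R : Retract N M)
    (h : LocG b Z M l) : LocG b Z N l := by
  intro θ hθ hb α hα
  obtain ⟨r, hr⟩ := h (R.r ≫ θ ≫ R.i) (by
    rw [Functor.map_comp, Functor.map_comp, hθ, zero_comp, comp_zero])
    (hb.imp id fun h1 => by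
      simp only [Category.assoc]
      rw [R.retract_assoc, reassoc_of% h1]) (α ≫ R.i) (Z.comp α R.i hα)
  refine ⟨r, ?_⟩
  have h1 := pw_comp (u := θ) (v := R.r ≫ θ ≫ R.i) (a := R.i) (by
    rw [R.retract_assoc]) r
  rw [Category.assoc, ← h1] at hr
  have := congrArg (· ≫ R.r) hr
  simpa using this

theorem LocG.ofIso {b : Prop} {Z : Fam W} {N M : C} {l : ℤ} (e : N ≅ M)
    (h : LocG b Z M l) : LocG b Z N l :=
  h.retract ⟨e.hom, e.inv, e.hom_inv_id⟩

theorem H_whisker_zero {N M : C} (θ : N ⟶ M) (A : C) (hθ : W.H.map θ = 0) :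
    W.H.map (θ ▷ A) = 0 := by
  have := W.H_tensor_zero θ (𝟙 A) hθ
  rwa [tensorHom_id] at this

theorem LocG.twist {b : Prop} {Z : Fam W} {N : C} {l : ℤ} (h : LocG b Z N l) (m : ℤ) :
    LocG b Z (N ⊗ W.T m) (l + m) := by
  intro θ hθ hb α hα
  have h3 : ∀ (k : ℤ) (_ : k = l) (g : N ⟶ N) (_ : W.H.map g = 0) (_ : b ∨ g ≫ g = g)
      (β : W.CH k N), β ∈ Z.Z k N → ∃ r : ℕ, β ≫ pw g r = 0 := by
    rintro _ rfl g hg hg' β hβ
    exact h g hg hg' β hβ
  obtain ⟨r, hr⟩ := h3 (l + m - m) (by ring)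
    ((untwist W N m).inv ≫ (θ ▷ W.T (-m)) ≫ (untwist W N m).hom) (by
      rw [Functor.map_comp, Functor.map_comp, H_whisker_zero θ _ hθ, zero_comp, comp_zero])
    (hb.imp id fun h1 => by
      simp only [Category.assoc, Iso.hom_inv_id_assoc]
      rw [← comp_whiskerRight_assoc, h1]) (shiftCH W (l + m) m α) (Z.shift α hα)
  refine ⟨r, ?_⟩
  apply shiftCH_injective
  rw [shift_eq]
  have h1 := pw_comp (u := (untwist W N m).inv ≫ (θ ▷ W.T (-m)) ≫ (untwist W N m).hom)
    (v := θ ▷ W.T (-m)) (a := (untwist W N m).inv) (by simp) r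
  rw [← pw_whisker]
  rw [← Category.assoc (untwist W N m).inv, ← h1, Category.assoc, Iso.inv_hom_id,
    Category.comp_id]
  exact hr

/-- idempotents -/
theorem LocG.of_kill {Z : Fam W} {N : C} {l : ℤ}
    (h : ∀ θ : N ⟶ N, θ ≫ θ = θ → W.H.map θ = 0 → ∀ α ∈ Z.Z l N, α ≫ θ = 0) :
    LocG False Z N l := by
  rintro θ hθ (hb | hb) α hα
  · exact hb.elim
  · refine ⟨1, ?_⟩
    change α ≫ 𝟙 N ≫ θ = 0
    rw [Category.id_comp]
    exact h θ hb hθ α hα

/-- **the idea, for endomorphisms**: local nilpotence on the algebraically trivial classes gives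
local nilpotence on all classes -/
theorem LocG.of_alg {b : Prop} (B : BaseChange W W' Φ) {h : C} {h' : C'} {S : Set C}
    (hS : h ∈ S) {S' : Set C'} (hS' : h' ∈ S') (hd' : Nonempty (h'ᘁ ≅ h' ⊗ W'.T (-1)))
    (P : GenericPoint W W' Φ h h') (R : Retract (W.T 1) (h ⊗ h)) {N : C} {l : ℤ}
    (hK : LocG b (algFam W' S') (Φ.obj (N ⊗ h) ⊗ W'.T 1) (l + 1))
    (hk : LocG b (algFam W S) N l) : LocG b (topFam W) N l := by
  intro θ hθ hb w _
  obtain ⟨r, hr⟩ := hK (Φ.map (θ ▷ h) ▷ W'.T 1)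
    (H_whisker_zero _ _ (bc_hom B (H_whisker_zero θ h hθ)))
    (hb.imp id fun h1 => by rw [← comp_whiskerRight, ← Φ.map_comp, ← comp_whiskerRight, h1])
    _ (res_alg B hS' hd' P R.i w)
  have h1 : res P R.i (w ≫ pw θ r) = 0 := by
    rw [res_pw]
    have h2 := congrArg ((B.tate (l + 1) ≪≫ Φ.mapIso (W.tateAdd l 1)).inv ≫ ·) hr
    simpa using h2
  obtain ⟨r', hr'⟩ := hk θ hθ hb _ (alg_of_res hS P R _ h1)
  refine ⟨r + r', ?_⟩
  rw [pw_add, ← Category.assoc]
  exact hr'

theorem nilG_of_locG {b : Prop} {M : C} (h : LocG b (topFam W) (M ⊗ Mᘁ) 0) : NilG b W M := by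
  intro f hf hb
  obtain ⟨m, hm⟩ := h (f ▷ (Mᘁ)) (H_whisker_zero f _ hf)
    (hb.imp id fun h1 => by rw [← comp_whiskerRight, h1]) (name W f) trivial
  rw [name_pw, pw_comm] at hm
  exact ⟨m + 1, name_injective hm⟩

theorem NilG.twist {b : Prop} {N : C} (h : NilG b W N) (m : ℤ) : NilG b W (N ⊗ W.T m) := by
  intro x hx hb
  obtain ⟨r, hr⟩ := h ((untwist W N m).inv ≫ (x ▷ W.T (-m)) ≫ (untwist W N m).hom) (by
    rw [Functor.map_comp, Functor.map_comp, H_whisker_zero x _ hx, zero_comp, comp_zero])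
    (hb.imp id fun h1 => by
      simp only [Category.assoc, Iso.hom_inv_id_assoc]
      rw [← comp_whiskerRight_assoc, h1])
  refine ⟨r, ?_⟩
  have h1 := pw_comp (u := (untwist W N m).inv ≫ (x ▷ W.T (-m)) ≫ (untwist W N m).hom)
    (v := x ▷ W.T (-m)) (a := (untwist W N m).inv) (by simp) r
  rw [hr, zero_comp] at h1
  have h2 : pw (x ▷ W.T (-m)) r = 0 := by
    have := congrArg ((untwist W N m).hom ≫ ·) h1
    simpa using this.symm
  rw [pw_whisker] at h2
  exact whisker_faithful (W := W) _ (-m) h2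

theorem NilG.retract {b : Prop} {N M : C} (R : Retract N M) (h : NilG b W M) : NilG b W N := by
  intro x hx hb
  obtain ⟨r, hr⟩ := h (R.r ≫ x ≫ R.i) (by
    rw [Functor.map_comp, Functor.map_comp, hx, zero_comp, comp_zero])
    (hb.imp id fun h1 => by
      simp only [Category.assoc]
      rw [R.retract_assoc, reassoc_of% h1])
  refine ⟨r, ?_⟩
  have h1 := pw_comp (u := x) (v := R.r ≫ x ≫ R.i) (a := R.i) (by
    rw [R.retract_assoc]) r
  rw [hr, comp_zero] at h1
  have := congrArg (· ≫ R.r) h1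
  simpa using this

theorem NilG.baseChange {b : Prop} (B : BaseChange W W' Φ) {N : C}
    (h : NilG b W' (Φ.obj N)) : NilG b W N := by
  have hadd := B.additive
  have hfaith := B.faithful
  intro x hx hb
  obtain ⟨r, hr⟩ := h (Φ.map x) (bc_hom B hx) (hb.imp id fun h1 => by rw [← Φ.map_comp, h1])
  refine ⟨r, ?_⟩
  apply Φ.map_injective
  rw [map_pw, hr, Φ.map_zero]

theorem nilHom_of_nilG (h : ∀ N : C, NilG True W N) : NilHom W :=
  fun N x hx => h N x hx (Or.inl trivial)

theorem noPhantom_of_nilG (h : ∀ N : C, NilG False W N) : NoPhantom W := by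
  intro N hN
  rw [IsZero.iff_id_eq_zero]
  obtain ⟨r, hr⟩ := h N (𝟙 N) (W.map_zero_of_subsingleton _ hN) (Or.inr (Category.comp_id _))
  have h1 : ∀ r : ℕ, pw (𝟙 N) r = 𝟙 N := by
    intro r
    induction r with
    | zero => rfl
    | succ r ih =>
      change pw (𝟙 N) r ≫ 𝟙 N = 𝟙 N
      rw [ih, Category.comp_id]
  rw [← h1 r, hr]

/-- a homologically trivial idempotent is part of the projector `p a` of some Chow-Kunneth
decomposition, for any index `a` -/
theorem exists_CK_phantom (hA : ∀ N : C, MurreA W N) {N : C} (f : N ⟶ N) (hf : f ≫ f = f)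
    (h0 : W.H.map f = 0) (a : ℤ) : ∃ D : CK W N, D.p a ≫ f = f := by
  classical
  obtain ⟨Q, i, e, hie, hei⟩ := IsIdempotentComplete.idempotents_split N (𝟙 N - f)
    (one_sub_idem hf)
  obtain ⟨D⟩ := hA Q
  have hif : i ≫ f = 0 := by
    have h1 : i ≫ (e ≫ i) = i := by rw [← Category.assoc, hie, Category.id_comp]
    rw [hei, Preadditive.comp_sub, Category.comp_id] at h1
    simpa using h1
  have hfe : f ≫ e = 0 := by
    have h1 : (e ≫ i) ≫ e = e := by rw [Category.assoc, hie, Category.comp_id]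
    rw [hei, Preadditive.sub_comp, Category.id_comp] at h1
    simpa using h1
  have hpp : ∀ j j', (e ≫ D.p j ≫ i) ≫ (e ≫ D.p j' ≫ i) = e ≫ (D.p j ≫ D.p j') ≫ i := by
    intro j j'
    simp only [Category.assoc]
    rw [reassoc_of% hie]
  have hpf : ∀ j, (e ≫ D.p j ≫ i) ≫ f = 0 := by
    intro j
    simp only [Category.assoc]
    rw [hif, comp_zero, comp_zero]
  have hfp : ∀ j, f ≫ (e ≫ D.p j ≫ i) = 0 := by
    intro j
    rw [← Category.assoc, hfe, zero_comp]
  let p : ℤ → (N ⟶ N) := fun j => e ≫ D.p j ≫ i + if j = a then f else 0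
  have hsum : ∑ j ∈ D.s ∪ {a}, p j = 𝟙 N := by
    change ∑ j ∈ D.s ∪ {a}, (e ≫ D.p j ≫ i + if j = a then f else 0) = 𝟙 N
    rw [Finset.sum_add_distrib, Finset.sum_ite_eq' (D.s ∪ {a}) a, if_pos (by simp)]
    have h1 : ∑ j ∈ D.s ∪ {a}, D.p j = 𝟙 Q := by
      rw [← D.sum_s]
      symm
      apply Finset.sum_subset
      · intro j hj; simp [hj]
      · intro j _ hj; exact D.p_eq_zero hj
    have h2 : ∑ j ∈ D.s ∪ {a}, e ≫ D.p j ≫ i = e ≫ (∑ j ∈ D.s ∪ {a}, D.p j) ≫ i := by
      rw [Preadditive.sum_comp, Preadditive.comp_sum]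
    rw [h2, h1, Category.id_comp, hei, sub_add_cancel]
  refine ⟨CK.ofPure (D.s ∪ {a}) p ?_ ?_ ?_ hsum ?_, ?_⟩
  · intro j hj
    simp only [Finset.mem_union, Finset.mem_singleton, not_or] at hj
    change e ≫ D.p j ≫ i + (if j = a then f else 0) = 0
    rw [D.p_eq_zero hj.1, if_neg hj.2, zero_comp, comp_zero, add_zero]
  · intro j
    change (e ≫ D.p j ≫ i + if j = a then f else 0) ≫ (e ≫ D.p j ≫ i + if j = a then f else 0) =
      (e ≫ D.p j ≫ i + if j = a then f else 0)
    by_cases hj : j = a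
    · rw [if_pos hj, Preadditive.add_comp, Preadditive.comp_add, Preadditive.comp_add, hpp, hpf,
        hfp, hf, D.idem]
      simp
    · rw [if_neg hj, add_zero, hpp, D.idem]
  · intro j j' hjj
    change (e ≫ D.p j ≫ i + if j = a then f else 0) ≫
      (e ≫ D.p j' ≫ i + if j' = a then f else 0) = 0
    rw [Preadditive.add_comp, Preadditive.comp_add, Preadditive.comp_add, hpp, D.orth j j' hjj]
    by_cases hj : j = a
    · have hj' : ¬ j' = a := fun h => hjj (hj.trans h.symm)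
      rw [if_pos hj, if_neg hj', hfp]
      simp
    · rw [if_neg hj]
      split_ifs
      · rw [hpf]; simp
      · simp
  · intro j j' hjj x hx
    change (W.H.map (e ≫ D.p j ≫ i + if j = a then f else 0)).hom x = 0
    rw [W.map_add_apply]
    simp only [W.map_comp_apply]
    rw [D.homology j j' _ (W.map_gr _ _ _ hx), if_neg hjj, map_zero, zero_add]
    split_ifs
    · rw [h0]; rfl
    · exact W.map_zero_apply _
  · change (e ≫ D.p a ≫ i + if a = a then f else 0) ≫ f = f
    rw [if_pos rfl, Preadditive.add_comp, hpf, hf, zero_add]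

/-- homologically trivial idempotents kill the classes which are killed by all `p a` -/
theorem LocG.of_CK (hA : ∀ N : C, MurreA W N) {Z : Fam W} {N : C} {l : ℤ} (a : ℤ)
    (h : ∀ D : CK W N, ∀ α ∈ Z.Z l N, α ≫ D.p a = 0) : LocG False Z N l := by
  refine LocG.of_kill fun θ hθ h0 α hα => ?_
  obtain ⟨D, hD⟩ := exists_CK_phantom hA θ hθ h0 a
  rw [← hD, ← Category.assoc, h D α hα, zero_comp]

end Pool.Agent.MAlg
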