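import Pool.Agent.MAlg.NilA
import Pool.Agent.MAlg.Crit
import Pool.Agent.Helper15.ABC.Finite

/-!
# Nilpotence of the homologically trivial endomorphisms
-/

set_option autoImplicit false
set_option linter.unusedSectionVars false

open CategoryTheory MonoidalCategory Limits
open Pool.Agent.Helper15.Murre Pool.Agent.Helper58.MAD Pool.Agent.Helper90.MAD Pool.Agent.Mid
open Pool.Agent.AbAlg

universe w v u

namespace Pool.Agent.MAlg

section one

variable {C : Type u} [Category.{v} C] [Preadditive C] [Linear ℚ C]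
  [MonoidalCategory C] [SymmetricCategory C] [MonoidalPreadditive C] [MonoidalLinear ℚ C]
  [RigidCategory C] [HasBinaryBiproducts C] [IsIdempotentComplete C]
  {F : Type w} [Field F] {W : MotivicHomology C F}

theorem LocG.untwist {b : Prop} {Z : Fam W} {N : C} {l : ℤ} (m : ℤ)
    (h : LocG b Z (N ⊗ W.T m) (l + m)) : LocG b Z N l := by
  have h1 := (h.twist (-m)).ofIso (Pool.Agent.Helper15.Murre.untwist W N m).symm
  rwa [add_neg_cancel_right] at h1

end one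

variable {F : Type w} [Field F] {G : Geometry.{w, v, u} F} (P : Poincare G) (E : Families G)

include P E in
theorem nilG_of_square {b : Prop} (h : ∀ (k : G.Fld) (V : G.Var k), G.Closed k → ∀ n : ℕ,
    0 < n → G.dim V = 2 * n → LocG b (topFam (G.mot k).W) (G.h V) n) (k : G.Fld)
    (N : (G.mot k).C) : NilG b (G.mot k).W N := by
  obtain ⟨Y, t, ⟨R⟩⟩ := G.generated N
  obtain ⟨Y₁, s, hpos, ⟨R₁⟩⟩ := E.positive Y
  obtain ⟨K, Φ, hK, ⟨B⟩, hcl⟩ := G.closure k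
  obtain ⟨Y', hdim, ⟨e⟩⟩ := hcl Y₁
  refine NilG.retract R (NilG.twist (NilG.retract R₁ (NilG.twist (NilG.baseChange B
    (NilG.retract ⟨e.hom, e.inv, e.hom_inv_id⟩ ?_)) s)) t)
  obtain ⟨V, hV, ⟨e'⟩⟩ := P.iso Y'
  obtain ⟨n, hn⟩ : ∃ n : ℕ, G.dim Y' = n := ⟨(G.dim Y').toNat, by omega⟩
  have h1 := (h K V hK n (by omega) (by omega)).twist (-G.dim Y')
  rw [hn, add_neg_cancel, ← hn] at h1
  exact nilG_of_locG (h1.ofIso e'.symm)

include E in
theorem locG_of_middle {b : Prop} (h : ∀ (k : G.Fld) (Z : G.Var k), G.Closed k → ∀ m : ℕ,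
    G.dim Z = 2 * m → LocG b (algF E k) (G.h Z) m) (k : G.Fld) (V : G.Var k)
    (hk : G.Closed k) (n : ℕ) (hn : 0 < n) (hV : G.dim V = 2 * n) :
    LocG b (topFam (G.mot k).W) (G.h V) n := by
  obtain ⟨X, ⟨R⟩⟩ := E.genus hk
  obtain ⟨K, Φ, X', hK, ⟨B⟩, ⟨Q⟩, hcl⟩ := E.generic hk X
  obtain ⟨V₁, hV₁, ⟨R₁⟩, -⟩ := E.times V X (by omega)
  obtain ⟨V₁', hV₁', ⟨e⟩⟩ := hcl V₁
  obtain ⟨V₂, hV₂, -, ⟨R₂⟩⟩ := E.times V₁' X' (by omega)
  have h1 : LocG b (algF E K) (G.h V₂) ((n + 1 : ℕ) : ℤ) :=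
    h K V₂ hK (n + 1) (by rw [hV₂, hV₁', hV₁, hV]; push_cast; ring)
  have R₃ : Retract (Φ.obj (G.h V ⊗ E.h₁ X)) (G.h V₁') :=
    (R₁.map Φ).trans ⟨e.hom, e.inv, e.hom_inv_id⟩
  have h2 : LocG b (algF E K) (Φ.obj (G.h V ⊗ E.h₁ X) ⊗ (G.mot K).W.T 1) ((n : ℤ) + 1) := by
    have h3 := (h1.retract R₂).retract (R₃.map (tensorRight ((G.mot K).W.T 1)))
    push_cast at h3
    exact h3
  exact LocG.of_alg B (show E.h₁ X ∈ E.motives k from ⟨X, rfl⟩)
    (show E.h₁ X' ∈ E.motives K from ⟨X', rfl⟩) (E.dual X') Q R h2 (h k V hk n hV)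

include E in
theorem locG_of_odd {b : Prop} (h : ∀ (k : G.Fld) (Z : G.Var k), G.Closed k → ∀ m : ℕ,
    G.dim Z = 2 * m + 1 → LocG b (topFam (G.mot k).W) (G.h Z) (m + 1)) (k : G.Fld)
    (V : G.Var k) (hk : G.Closed k) (n : ℕ) (hn : 0 < n) (hV : G.dim V = 2 * n) :
    LocG b (topFam (G.mot k).W) (G.h V) n := by
  obtain ⟨X, -⟩ := E.genus hk
  obtain ⟨V₁, hV₁, -, ⟨R₁⟩⟩ := E.times V X (by omega)
  exact ((h k V₁ hk n (by omega)).retract R₁).untwist 1

include P E in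
theorem nilHom_of_phantom (hA : ConjA G) (h : ∀ (k : G.Fld) (V : G.Var k), G.Closed k →
    ∀ n : ℕ, 0 < n → G.dim V = 2 * n → LocG False (topFam (G.mot k).W) (G.h V) n)
    (k : G.Fld) : NilHom (G.mot k).W := by
  have h1 : NoPhantom (G.mot k).W := noPhantom_of_nilG (nilG_of_square P E h k)
  exact Pool.Agent.Helper15.ABC.nilHom_of_kimura (fun M => h1.kimura (hA k M).some)

include P E in
theorem nilHom_of_oddB (hA : ConjA G) (h : ∀ m, OddB G m) (k : G.Fld) :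
    NilHom (G.mot k).W := by
  refine nilHom_of_phantom P E hA (locG_of_odd E fun k Z hk m hZ => ?_) k
  refine LocG.of_CK (hA k) (2 * m + 1) (fun D α _ => ?_)
  have h1 : α ≫ D.p (2 * m + 1) ∈ D.CH (m + 1) (2 * m + 1) :=
    D.mem_CH.2 (by rw [Category.assoc, D.idem])
  rw [h m k Z hk hZ D] at h1
  simpa using h1

include P in
theorem nilHom_of_middleAlg (hA : ConjA G) (h : ∀ m, MiddleAlg E m) (k : G.Fld) :
    NilHom (G.mot k).W := by
  refine nilHom_of_phantom P E hA (locG_of_middle E fun k Z hk m hZ => ?_) k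
  refine LocG.of_CK (hA k) (2 * m) (fun D α hα => ?_)
  have h1 : α ≫ D.p (2 * m) ∈ D.CH m (2 * m) ⊓ E.Alg m (G.h Z) :=
    ⟨D.mem_CH.2 (by rw [Category.assoc, D.idem]), algCyc_comp _ α _ hα⟩
  rw [h m k Z hk hZ D] at h1
  simpa using h1

include P E in
theorem nilHom_of_oddNil (h : ∀ m, OddNil G m) (k : G.Fld) : NilHom (G.mot k).W := by
  refine nilHom_of_nilG (nilG_of_square P E (locG_of_odd E fun k Z hk m hZ => ?_) k)
  intro θ hθ _ α _
  exact h m k Z hk hZ θ (fun j _ x _ => by rw [hθ]; rfl) α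

include P in
theorem nilHom_of_middleAlgNil (h : ∀ m, MiddleAlgNil E m) (k : G.Fld) :
    NilHom (G.mot k).W := by
  refine nilHom_of_nilG (nilG_of_square P E (locG_of_middle E fun k Z hk m hZ => ?_) k)
  intro θ hθ _ α hα
  exact h m k Z hk hZ θ (fun j _ x _ => by rw [hθ]; rfl) α hα

end Pool.Agent.MAlg
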